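import Mathlib

/-!
# Ramsey's theorem for finite subsets of the natural numbers
-/

open Filter

namespace Pool.Agent.Helper91.Cyl

/-- The infinite Ramsey theorem, relative to an infinite set. -/
theorem ramsey_infinite {κ : Type*} [Finite κ] : ∀ (r : ℕ) (χ : Finset ℕ → κ) (A : Set ℕ),
    A.Infinite → ∃ H ⊆ A, H.Infinite ∧ ∃ k, ∀ S : Finset ℕ, (S : Set ℕ) ⊆ H → S.card = r →
      χ S = k
  | 0, χ, A, hA => ⟨A, subset_rfl, hA, χ ∅, fun S _ hS => by rw [Finset.card_eq_zero.1 hS]⟩
  | r + 1, χ, A, hA => by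
    classical
    -- one step
    have step : ∀ B : {B : Set ℕ // B.Infinite}, ∃ (a : ℕ) (C : {C : Set ℕ // C.Infinite}) (k : κ),
        a ∈ B.1 ∧ C.1 ⊆ B.1 ∧ (∀ c ∈ C.1, a < c) ∧
        ∀ S : Finset ℕ, (S : Set ℕ) ⊆ C.1 → S.card = r → χ (insert a S) = k := by
      rintro ⟨B, hB⟩
      obtain ⟨a, ha⟩ := hB.nonempty
      have hB' : (B \ {b | b ≤ a}).Infinite := hB.sdiff (Set.finite_le_nat a)
      obtain ⟨H, hH, hHi, k, hk⟩ := ramsey_infinite r (fun S => χ (insert a S)) _ hB'
      refine ⟨a, ⟨H, hHi⟩, k, ha, fun x hx => (hH hx).1, fun c hc => ?_, hk⟩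
      have := (hH hc).2
      simpa using this
    choose a C k ha hCB haC hk using step
    let B : ℕ → {B : Set ℕ // B.Infinite} := fun m => C^[m] ⟨A, hA⟩
    have hBsucc : ∀ m, B (m + 1) = C (B m) := fun m => Function.iterate_succ_apply' _ _ _
    have hBsub : ∀ m l, m ≤ l → (B l).1 ⊆ (B m).1 := by
      intro m l hml
      induction l, hml using Nat.le_induction with
      | base => exact subset_rfl
      | succ l _ ih => rw [hBsucc]; exact (hCB _).trans ih
    let s : ℕ → ℕ := fun m => a (B m)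
    have hsB : ∀ m l, m < l → s l ∈ (C (B m)).1 := by
      intro m l hml
      have h1 : s l ∈ (B l).1 := ha _
      have h2 := hBsub (m + 1) l hml h1
      rw [hBsucc] at h2
      exact h2
    have hsmono : StrictMono s := strictMono_nat_of_lt_succ fun m => haC _ _ (hsB m (m + 1)
      (Nat.lt_succ_self m))
    -- pigeonhole
    obtain ⟨k₀, hk₀⟩ : ∃ k₀, ((fun m => k (B m)) ⁻¹' {k₀}).Infinite := by
      by_contra hno
      push Not at hno
      have : (Set.univ : Set ℕ).Finite := by
        have h1 : (Set.univ : Set ℕ) = ⋃ k₀, (fun m => k (B m)) ⁻¹' {k₀} := by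
          ext m; simp
        rw [h1]
        exact Set.finite_iUnion fun k₀ => hno k₀
      exact Set.infinite_univ this
    refine ⟨s '' ((fun m => k (B m)) ⁻¹' {k₀}), ?_, hk₀.image hsmono.injective.injOn, k₀, ?_⟩
    · rintro _ ⟨m, -, rfl⟩
      have h1 : s m ∈ (B m).1 := ha _
      exact hBsub 0 m (Nat.zero_le _) h1
    · intro S hS hcard
      have hne : S.Nonempty := Finset.card_pos.1 (by omega)
      have hmem := S.min'_mem hne
      obtain ⟨m, hm, hsm⟩ := hS hmem
      have hins : insert (s m) (S.erase (s m)) = S := Finset.insert_erase (by rw [hsm]; exact hmem)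
      rw [← hins, ← (show k (B m) = k₀ from hm)]
      refine hk _ _ ?_ ?_
      · intro x hx
        rw [Finset.mem_coe, Finset.mem_erase] at hx
        obtain ⟨l, hl, rfl⟩ := hS hx.2
        refine hsB m l ?_
        by_contra hlm
        push Not at hlm
        have h1 : s l ≤ s m := hsmono.monotone hlm
        have h2 : s m ≤ s l := by rw [hsm]; exact S.min'_le _ hx.2
        exact hx.1 (le_antisymm h1 h2)
      · rw [Finset.card_erase_of_mem (by rw [hsm]; exact hmem), hcard]; rfl

/-- The finite Ramsey theorem. -/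
theorem ramsey_finite (κ : Type*) [Finite κ] [Nonempty κ] (r m : ℕ) :
    ∃ N : ℕ, ∀ χ : Finset ℕ → κ, ∃ H : Finset ℕ, H ⊆ Finset.range N ∧ H.card = m ∧
      ∃ k, ∀ S ⊆ H, S.card = r → χ S = k := by
  classical
  by_contra hno
  push Not at hno
  choose χ hχ using hno
  -- the limit colouring
  have hlim : ∀ S : Finset ℕ, ∃ k, ∀ᶠ N in hyperfilter ℕ, χ N S = k := by
    intro S
    have h1 : ∀ᶠ N in (hyperfilter ℕ : Filter ℕ), ∃ k, χ N S = k :=
      Eventually.of_forall fun N => ⟨_, rfl⟩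
    exact (Ultrafilter.eventually_exists_iff.1 h1)
  choose lim hlim using hlim
  obtain ⟨H, -, hHi, k, hk⟩ := ramsey_infinite r lim Set.univ Set.infinite_univ
  obtain ⟨T, hTH, hTc⟩ := hHi.exists_subset_card_eq m
  have hev : ∀ᶠ N in (hyperfilter ℕ : Filter ℕ), ∀ S ∈ T.powerset, χ N S = lim S := by
    rw [Filter.eventually_all_finset]
    intro S _
    exact hlim S
  have hlarge : ∀ᶠ N in (hyperfilter ℕ : Filter ℕ), T ⊆ Finset.range N := by
    have h1 : ∀ᶠ N in (cofinite : Filter ℕ), T ⊆ Finset.range N := by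
      rw [Nat.cofinite_eq_atTop]
      filter_upwards [eventually_gt_atTop (T.sup id)] with N hN x hx
      rw [Finset.mem_range]
      exact lt_of_le_of_lt (Finset.le_sup (f := id) hx) hN
    exact hyperfilter_le_cofinite h1
  obtain ⟨N, hN1, hN2⟩ := (hev.and hlarge).exists
  obtain ⟨S, hS, hSc, hne⟩ := hχ N T hN2 hTc k
  refine hne ?_
  rw [hN1 S (Finset.mem_powerset.2 hS)]
  exact hk S (fun x hx => hTH (hS hx)) hSc

end Pool.Agent.Helper91.Cyl
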