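import Mathlib

/-!
# Cylindric algebras of finite dimension
-/

open Function

namespace Pool.Agent.Helper91.Cyl

/-- An algebra of the similarity type of cylindric algebras of dimension `n`: a Boolean algebra with
operations `cyl i` (cylindrifications) and constants `diag i j` (diagonal elements). -/
structure Alg (n : ℕ) where
  /-- the universe -/
  carrier : Type
  /-- the Boolean algebra -/
  ba : BooleanAlgebra carrier
  /-- the cylindrifications -/
  cyl : Fin n → carrier → carrier
  /-- the diagonal elements -/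
  diag : Fin n → Fin n → carrier

instance {n : ℕ} : CoeSort (Alg n) Type := ⟨Alg.carrier⟩

instance {n : ℕ} (A : Alg n) : BooleanAlgebra A := A.ba

variable {n : ℕ}

/-- The axioms of cylindric algebras of dimension `n`. -/
structure IsCA (A : Alg n) : Prop where
  cyl_bot : ∀ i, A.cyl i ⊥ = ⊥
  le_cyl : ∀ i x, x ≤ A.cyl i x
  cyl_inf : ∀ i x y, A.cyl i (x ⊓ A.cyl i y) = A.cyl i x ⊓ A.cyl i y
  cyl_comm : ∀ i j x, A.cyl i (A.cyl j x) = A.cyl j (A.cyl i x)
  diag_self : ∀ i, A.diag i i = ⊤
  diag_eq : ∀ i j k, k ≠ i → k ≠ j → A.diag i j = A.cyl k (A.diag i k ⊓ A.diag k j)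
  cyl_diag : ∀ i j x, i ≠ j → A.cyl i (A.diag i j ⊓ x) ⊓ A.cyl i (A.diag i j ⊓ xᶜ) = ⊥

/-- Homomorphisms. -/
structure IsHom (A B : Alg n) (f : A → B) : Prop where
  map_sup : ∀ x y, f (x ⊔ y) = f x ⊔ f y
  map_compl : ∀ x, f xᶜ = (f x)ᶜ
  map_cyl : ∀ i x, f (A.cyl i x) = B.cyl i (f x)
  map_diag : ∀ i j, f (A.diag i j) = B.diag i j

/-- The full cylindric set algebra of dimension `n` with base `U`. -/
def setAlg (n : ℕ) (U : Type) : Alg n where
  carrier := Set (Fin n → U)
  ba := inferInstance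
  cyl i X := {a | ∃ u : U, update a i u ∈ X}
  diag i j := {a | a i = a j}

/-- Products. -/
def piAlg {K : Type} (A : K → Alg n) : Alg n where
  carrier := ∀ k, A k
  ba := inferInstance
  cyl i x := fun k => (A k).cyl i (x k)
  diag i j := fun k => (A k).diag i j

/-- Representability: the algebra is isomorphic to a subdirect product of cylindric set algebras of
dimension `n`, that is, it embeds in a product of full cylindric set algebras with non-empty
bases. -/
def Representable (A : Alg n) : Prop :=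
  ∃ (K : Type) (U : K → Type), (∀ k, Nonempty (U k)) ∧
    ∃ f : A → piAlg (fun k => setAlg n (U k)), IsHom A _ f ∧ Injective f

/-- The complex algebra of the atom structure of an algebra: all sets of atoms. -/
def cmAt (A : Alg n) : Alg n where
  carrier := Set {a : A // IsAtom a}
  ba := inferInstance
  cyl i X := {a | ∃ b ∈ X, a.1 ≤ A.cyl i b.1}
  diag i j := {a | a.1 ≤ A.diag i j}

/-- The class `SRCA_n` of strongly representable atomic algebras: the atomic cylindric algebras of
dimension `n` for which the complex algebra of the atom structure is representable. -/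
def SRCA (n : ℕ) : Set (Alg n) := {A | IsCA A ∧ IsAtomic A ∧ Representable (cmAt A)}

/-- The class `WRCA_n` of representable atomic cylindric algebras of dimension `n`. -/
def WRCA (n : ℕ) : Set (Alg n) := {A | IsCA A ∧ Representable A ∧ IsAtomic A}

/-- `C` is (up to isomorphism) the ultraproduct of the algebras `B i` modulo the ultrafilter `V`:
it is the image of the product under a homomorphism that identifies two elements of the product
if and only if they agree `V`-almost everywhere. -/
def IsUltraproduct {I : Type} (V : Ultrafilter I) (B : I → Alg n) (C : Alg n) : Prop :=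
  ∃ π : piAlg B → C, IsHom _ _ π ∧ Surjective π ∧
    ∀ f g : piAlg B, π f = π g ↔ ∀ᶠ i in (V : Filter I), f i = g i

/-- The class of ultraproducts of members of `K`. -/
def Up (K : Set (Alg n)) : Set (Alg n) :=
  {C | ∃ (I : Type) (V : Ultrafilter I) (B : I → Alg n), (∀ i, B i ∈ K) ∧ IsUltraproduct V B C}

/-- The class of ultraroots of members of `K`: the algebras some ultrapower of which lies
in `K`. -/
def Ur (K : Set (Alg n)) : Set (Alg n) :=
  {A | ∃ (I : Type) (V : Ultrafilter I) (C : Alg n), C ∈ K ∧ IsUltraproduct V (fun _ : I => A) C}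

/-! ### Homomorphisms -/

namespace IsHom

variable {A B : Alg n} {f : A → B} (h : IsHom A B f)
include h

lemma map_inf (x y : A) : f (x ⊓ y) = f x ⊓ f y := by
  have h1 : x ⊓ y = (xᶜ ⊔ yᶜ)ᶜ := by simp
  rw [h1, h.map_compl, h.map_sup, h.map_compl, h.map_compl]
  simp

lemma map_bot : f ⊥ = ⊥ := by
  have h1 : (⊥ : A) = ⊤ ⊓ ⊤ᶜ := by simp
  rw [h1, h.map_inf, h.map_compl]
  simp

lemma map_top : f ⊤ = ⊤ := by
  have h1 : (⊤ : A) = ⊥ᶜ := by simp
  rw [h1, h.map_compl, h.map_bot]; simp

lemma mono {x y : A} (hxy : x ≤ y) : f x ≤ f y := by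
  have h1 : x ⊔ y = y := sup_eq_right.2 hxy
  have h2 := h.map_sup x y
  rw [h1] at h2
  rw [h2]; exact le_sup_left

lemma comp {C : Alg n} {g : B → C} (hg : IsHom B C g) : IsHom A C (fun x => g (f x)) where
  map_sup x y := by rw [h.map_sup, hg.map_sup]
  map_compl x := by rw [h.map_compl, hg.map_compl]
  map_cyl i x := by rw [h.map_cyl, hg.map_cyl]
  map_diag i j := by rw [h.map_diag, hg.map_diag]

end IsHom

lemma proj_isHom {K : Type} (A : K → Alg n) (k : K) :
    IsHom (piAlg A) (A k) (fun x => x k) where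
  map_sup _ _ := rfl
  map_compl _ := rfl
  map_cyl _ _ := rfl
  map_diag _ _ := rfl

/-! ### Set algebras are cylindric algebras -/

lemma setAlg_ext {U : Type} {X Y : Set (Fin n → U)} (h : ∀ a : Fin n → U, a ∈ X ↔ a ∈ Y) :
    @Eq (setAlg n U) X Y := Set.ext h

lemma setAlg_isCA (U : Type) : IsCA (setAlg n U) where
  cyl_bot i := setAlg_ext fun a => by
    constructor
    · rintro ⟨u, hu⟩; exact hu
    · intro h; exact h.elim
  le_cyl i X := by
    intro a ha
    exact ⟨a i, by rw [update_eq_self]; exact ha⟩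
  cyl_inf i X Y := setAlg_ext fun a => by
    constructor
    · rintro ⟨u, hX, v, hv⟩
      rw [update_idem] at hv
      exact ⟨⟨u, hX⟩, ⟨v, hv⟩⟩
    · rintro ⟨⟨u, hu⟩, ⟨v, hv⟩⟩
      exact ⟨u, hu, v, by rw [update_idem]; exact hv⟩
  cyl_comm i j X := by
    by_cases hij : i = j
    · rw [hij]
    · refine setAlg_ext fun a => ?_
      constructor
      · rintro ⟨u, v, hv⟩
        exact ⟨v, u, by rw [update_comm hij] at hv; exact hv⟩
      · rintro ⟨u, v, hv⟩
        exact ⟨v, u, by rw [update_comm (Ne.symm hij)] at hv; exact hv⟩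
  diag_self i := setAlg_ext fun a => ⟨fun _ => trivial, fun _ => rfl⟩
  diag_eq i j k hki hkj := setAlg_ext fun a => by
    constructor
    · intro (h : a i = a j)
      refine ⟨a i, ?_, ?_⟩
      · show update a k (a i) i = update a k (a i) k
        rw [update_self, update_of_ne hki.symm]
      · show update a k (a i) k = update a k (a i) j
        rw [update_self, update_of_ne hkj.symm, h]
    · rintro ⟨u, h1, h2⟩
      have h1' : update a k u i = update a k u k := h1
      have h2' : update a k u k = update a k u j := h2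
      rw [update_self, update_of_ne hki.symm] at h1'
      rw [update_self, update_of_ne hkj.symm] at h2'
      exact h1'.trans h2'
  cyl_diag i j X hij := setAlg_ext fun a => by
    constructor
    · rintro ⟨⟨u, hu1, hu2⟩, ⟨v, hv1, hv2⟩⟩
      have h1 : update a i u i = update a i u j := hu1
      have h2 : update a i v i = update a i v j := hv1
      rw [update_self, update_of_ne (Ne.symm hij)] at h1 h2
      rw [h1] at hu2
      rw [h2] at hv2
      exact hv2 hu2
    · intro h; exact h.elim

/-- Subalgebras of cylindric algebras are cylindric algebras. -/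
lemma IsCA.of_injective {A B : Alg n} {f : A → B} (hB : IsCA B) (h : IsHom A B f)
    (hf : Injective f) : IsCA A where
  cyl_bot i := hf (by rw [h.map_cyl, h.map_bot, hB.cyl_bot])
  le_cyl i x := by
    have h1 : x ⊔ A.cyl i x = A.cyl i x := hf (by
      rw [h.map_sup, h.map_cyl]
      exact sup_eq_right.2 (hB.le_cyl _ _))
    exact sup_eq_right.1 h1
  cyl_inf i x y := hf (by
    rw [h.map_cyl, h.map_inf, h.map_cyl, h.map_inf, h.map_cyl, h.map_cyl, hB.cyl_inf])
  cyl_comm i j x := hf (by simp only [h.map_cyl]; exact hB.cyl_comm _ _ _)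
  diag_self i := hf (by rw [h.map_diag, h.map_top, hB.diag_self])
  diag_eq i j k hi hj := hf (by
    rw [h.map_diag, h.map_cyl, h.map_inf, h.map_diag, h.map_diag]
    exact hB.diag_eq i j k hi hj)
  cyl_diag i j x hij := hf (by
    rw [h.map_inf, h.map_cyl, h.map_cyl, h.map_inf, h.map_inf, h.map_diag, h.map_compl, h.map_bot]
    exact hB.cyl_diag i j _ hij)

/-! ### Arithmetic of cylindric algebras -/

namespace IsCA

variable {A : Alg n} (hA : IsCA A)
include hA

lemma cyl_cyl (i : Fin n) (x : A) : A.cyl i (A.cyl i x) = A.cyl i x := by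
  have h := hA.cyl_inf i ⊤ x
  rw [top_inf_eq] at h
  rw [h]
  have : A.cyl i ⊤ = ⊤ := top_le_iff.1 (hA.le_cyl i ⊤)
  rw [this, top_inf_eq]

lemma disj_iff (i : Fin n) (x y : A) : x ⊓ A.cyl i y = ⊥ ↔ A.cyl i x ⊓ y = ⊥ := by
  have key : ∀ x y : A, x ⊓ A.cyl i y = ⊥ → A.cyl i x ⊓ A.cyl i y = ⊥ := by
    intro x y h
    rw [← hA.cyl_inf, h, hA.cyl_bot]
  constructor
  · intro h
    exact le_bot_iff.1 ((inf_le_inf_left _ (hA.le_cyl i y)).trans (key x y h).le)
  · intro h
    have h1 := key y x (by rw [inf_comm]; exact h)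
    rw [inf_comm] at h1
    exact le_bot_iff.1 ((inf_le_inf_right _ (hA.le_cyl i x)).trans h1.le)

lemma cyl_mono (i : Fin n) {x y : A} (h : x ≤ y) : A.cyl i x ≤ A.cyl i y := by
  have h1 : A.cyl i (x ⊓ A.cyl i y) = A.cyl i x ⊓ A.cyl i y := hA.cyl_inf i x y
  have h2 : x ⊓ A.cyl i y = x := inf_eq_left.2 (h.trans (hA.le_cyl i y))
  rw [h2] at h1
  rw [h1]; exact inf_le_right

/-- For atoms the relation `a ≤ cyl i b` is symmetric. -/
lemma atom_le_comm (i : Fin n) {a b : A} (ha : IsAtom a) (hb : IsAtom b)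
    (h : a ≤ A.cyl i b) : b ≤ A.cyl i a := by
  by_contra hn
  have h1 : b ⊓ A.cyl i a = ⊥ := by
    rcases (hb.le_iff.1 (inf_le_left : b ⊓ A.cyl i a ≤ b)) with h | h
    · exact h
    · exact absurd (inf_eq_left.1 h) hn
  rw [hA.disj_iff, inf_comm] at h1
  exact ha.1 (le_bot_iff.1 ((le_inf le_rfl h).trans h1.le))

lemma atom_cyl_eq (i : Fin n) {a b : A} (ha : IsAtom a) (hb : IsAtom b)
    (h : a ≤ A.cyl i b) : A.cyl i a = A.cyl i b := by
  refine le_antisymm ?_ ?_
  · have := hA.cyl_mono i h
    rwa [hA.cyl_cyl] at this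
  · have := hA.cyl_mono i (hA.atom_le_comm i ha hb h)
    rwa [hA.cyl_cyl] at this

/-- Below a cylindrification there are enough atoms. -/
lemma exists_atom_le_cyl [IsAtomic A] (i : Fin n) {a x : A} (ha : IsAtom a)
    (h : a ≤ A.cyl i x) : ∃ b, IsAtom b ∧ b ≤ x ∧ a ≤ A.cyl i b := by
  have h1 : A.cyl i a ⊓ x ≠ ⊥ := by
    intro h1
    rw [← hA.disj_iff] at h1
    exact ha.1 (le_bot_iff.1 ((le_inf le_rfl h).trans h1.le))
  obtain ⟨b, hb, hbx⟩ := (IsAtomic.eq_bot_or_exists_atom_le (A.cyl i a ⊓ x)).resolve_left h1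
  exact ⟨b, hb, hbx.trans inf_le_right, hA.atom_le_comm i hb ha (hbx.trans inf_le_left)⟩

/-- `d_ij · c_i (d_ij · x) = d_ij · x`. -/
lemma diag_cyl (i j : Fin n) (hij : i ≠ j) {x : A} (hx : x ≤ A.diag i j) :
    A.diag i j ⊓ A.cyl i x = x := by
  refine le_antisymm ?_ (le_inf hx (hA.le_cyl i x))
  have h := hA.cyl_diag i j x hij
  rw [inf_eq_right.2 hx] at h
  -- `d ⊓ c x ⊓ xᶜ ≤ c x ⊓ c (d ⊓ xᶜ) = ⊥`
  rw [← sdiff_eq_bot_iff, sdiff_eq]
  refine le_bot_iff.1 (le_trans ?_ h.le)
  refine le_inf (inf_le_left.trans inf_le_right) ?_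
  refine le_trans ?_ (hA.le_cyl i _)
  exact inf_le_inf_right _ inf_le_left

end IsCA

end Pool.Agent.Helper91.Cyl
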