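import Mathlib
import Pool.Agent.Helper91.Cyl.Defs

/-!
# A first-order property of cylindric algebras and its transfer to ultraproducts
-/

open Function Filter

namespace Pool.Agent.Helper91.Cyl

variable {r : ℕ}

/-- The index `k`, as an element of `Fin (r + 1)`. -/
def idx (r k : ℕ) : Fin (r + 1) := Fin.ofNat (r + 1) k

lemma idx_val {k : ℕ} (h : k ≤ r) : (idx r k).1 = k := by
  simp only [idx, Fin.val_ofNat]
  exact Nat.mod_eq_of_lt (by omega)

lemma idx_eq (i : Fin (r + 1)) : idx r i.1 = i := Fin.ext (idx_val (by omega))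

/-- The label of an element at the position `k`: coordinate `k` is removed, the coordinates before
it are shifted, and the first one is doubled. -/
def lab (A : Alg (r + 1)) : ℕ → A → A
  | 0, x => A.diag (idx r 0) (idx r 1) ⊓ A.cyl (idx r 0) x
  | k + 1, x => lab A k (A.diag (idx r (k + 1)) (idx r k) ⊓ A.cyl (idx r (k + 1)) x)

/-- The element is disjoint from all diagonals. -/
def Dist {A : Alg (r + 1)} (x : A) : Prop := ∀ i j, i ≠ j → x ⊓ A.diag i j = ⊥

/-- All cylindrifications, one after the other. -/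
def cylAll (A : Alg (r + 1)) (x : A) : A :=
  (List.finRange (r + 1)).foldr (fun i y => A.cyl i y) x

/-- Two labels are linked. -/
def Adj {A : Alg (r + 1)} (x y : A) : Prop :=
  ∃ m : A, IsAtom m ∧ Dist m ∧ lab A 0 m = x ∧ lab A 1 m = y ∧
    ∀ i : Fin (r + 1), 2 ≤ i.1 → lab A i.1 m = x

/-- The property of a colouring of the labels by algebra elements. -/
structure PhiAt (A : Alg (r + 1)) (p : Fin (r + 1) → A) : Prop where
  color : ∀ m : A, IsAtom m → Dist m → ∀ i : Fin (r + 1), ∃ c, lab A i.1 m ≤ p c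
  unique : ∀ c, ∀ x y z : A, x ≤ p c → y ≤ p c → z ≤ p c → Adj x y → Adj x z → y = z
  symm : ∀ c, ∀ x y : A, x ≤ p c → y ≤ p c → Adj x y → Adj y x
  irrefl : ∀ c, ∀ x : A, x ≤ p c → ¬ Adj x x
  link : ∀ m : A, IsAtom m → Dist m → ∀ c, (∀ i : Fin (r + 1), lab A i.1 m ≤ p c) →
    ∃ i j : Fin (r + 1), Adj (lab A i.1 m) (lab A j.1 m)

/-- The first-order property. -/
def Phi (A : Alg (r + 1)) : Prop :=
  (∀ x : A, x ≠ ⊥ → cylAll A x = ⊤) ∧ ∃ p, PhiAt A p

/-! ### Transfer -/

section los

variable {I : Type} (V : Ultrafilter I)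

/-- The statement `P` is equivalent to the truth of the statements `Q i` almost everywhere. -/
def Los (P : Prop) (Q : I → Prop) : Prop := P ↔ ∀ᶠ i in (V : Filter I), Q i

variable {V}

lemma Los.not {P : Prop} {Q : I → Prop} (h : Los V P Q) : Los V (¬ P) (fun i => ¬ Q i) := by
  unfold Los at h ⊢
  rw [h, Ultrafilter.eventually_not]

lemma Los.and {P P' : Prop} {Q Q' : I → Prop} (h : Los V P Q) (h' : Los V P' Q') :
    Los V (P ∧ P') (fun i => Q i ∧ Q' i) := by
  unfold Los at h h' ⊢
  rw [h, h', Filter.eventually_and]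

lemma Los.or {P P' : Prop} {Q Q' : I → Prop} (h : Los V P Q) (h' : Los V P' Q') :
    Los V (P ∨ P') (fun i => Q i ∨ Q' i) := by
  unfold Los at h h' ⊢
  rw [h, h', Ultrafilter.eventually_or]

lemma Los.imp {P P' : Prop} {Q Q' : I → Prop} (h : Los V P Q) (h' : Los V P' Q') :
    Los V (P → P') (fun i => Q i → Q' i) := by
  unfold Los at h h' ⊢
  rw [h, h', Ultrafilter.eventually_imp]

lemma Los.const (P : Prop) : Los V P (fun _ => P) := by
  unfold Los
  simp

lemma Los.forall_fin {ι : Type*} [Finite ι] {P : ι → Prop} {Q : ι → I → Prop}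
    (h : ∀ c, Los V (P c) (Q c)) : Los V (∀ c, P c) (fun i => ∀ c, Q c i) := by
  unfold Los at h ⊢
  rw [Filter.eventually_all]
  exact forall_congr' h

lemma Los.exists_fin {ι : Type*} [Finite ι] {P : ι → Prop} {Q : ι → I → Prop}
    (h : ∀ c, Los V (P c) (Q c)) : Los V (∃ c, P c) (fun i => ∃ c, Q c i) := by
  have h1 := (Los.forall_fin fun c => (h c).not).not
  simpa using h1

lemma Los.congr {P P' : Prop} {Q Q' : I → Prop} (h : Los V P Q) (h1 : P ↔ P')
    (h2 : ∀ i, Q i ↔ Q' i) : Los V P' Q' := by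
  unfold Los at h ⊢
  rw [← h1, h]
  exact Filter.eventually_congr (Eventually.of_forall h2)

variable {B : I → Alg (r + 1)} {C : Alg (r + 1)} {π : piAlg B → C}

section

variable (surj : Surjective π)
include surj

lemma Los.ex {P : C → Prop} {Q : ∀ i, B i → Prop}
    (h : ∀ f : ∀ i, B i, Los V (P (π f)) (fun i => Q i (f i))) :
    Los V (∃ x, P x) (fun i => ∃ x, Q i x) := by
  classical
  unfold Los at h ⊢
  constructor
  · rintro ⟨x, hx⟩
    obtain ⟨f, rfl⟩ := surj x
    exact ((h f).1 hx).mono fun i hi => ⟨_, hi⟩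
  · intro hev
    let f : ∀ i, B i := fun i => if hi : ∃ x, Q i x then hi.choose else ⊥
    refine ⟨π f, (h f).2 (hev.mono fun i hi => ?_)⟩
    simp only [f, dif_pos hi]
    exact hi.choose_spec

lemma Los.all {P : C → Prop} {Q : ∀ i, B i → Prop}
    (h : ∀ f : ∀ i, B i, Los V (P (π f)) (fun i => Q i (f i))) :
    Los V (∀ x, P x) (fun i => ∀ x, Q i x) := by
  have h1 := (Los.ex surj (P := fun x => ¬ P x) (Q := fun i x => ¬ Q i x) fun f => (h f).not).not
  simpa using h1

lemma Los.exTuple {k : ℕ} {P : (Fin k → C) → Prop} {Q : ∀ i, (Fin k → B i) → Prop}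
    (h : ∀ f : Fin k → ∀ i, B i, Los V (P (fun c => π (f c))) (fun i => Q i (fun c => f c i))) :
    Los V (∃ x, P x) (fun i => ∃ x, Q i x) := by
  classical
  unfold Los at h ⊢
  constructor
  · rintro ⟨x, hx⟩
    choose f hf using fun c => surj (x c)
    have h1 : x = fun c => π (f c) := funext fun c => (hf c).symm
    rw [h1] at hx
    exact ((h f).1 hx).mono fun i hi => ⟨_, hi⟩
  · intro hev
    let f : Fin k → ∀ i, B i := fun c i => if hi : ∃ x, Q i x then hi.choose c else ⊥
    refine ⟨fun c => π (f c), (h f).2 (hev.mono fun i hi => ?_)⟩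
    have : (fun c => f c i) = hi.choose := by
      funext c
      simp only [f, dif_pos hi]
    rw [this]
    exact hi.choose_spec

end

variable (hom : IsHom _ _ π) (surj : Surjective π)
  (ker : ∀ f g : piAlg B, π f = π g ↔ ∀ᶠ i in (V : Filter I), f i = g i)

include ker in
lemma los_eq (f g : ∀ i, B i) : Los V (π f = π g) (fun i => f i = g i) := ker f g

include hom in
lemma map_cyl' (j : Fin (r + 1)) (f : ∀ i, B i) :
    C.cyl j (π f) = π (fun i => (B i).cyl j (f i)) := (hom.map_cyl j f).symm

include hom in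
lemma map_diag' (j k : Fin (r + 1)) : C.diag j k = π (fun i => (B i).diag j k) :=
  (hom.map_diag j k).symm

include hom in
lemma map_inf' (f g : ∀ i, B i) : π f ⊓ π g = π (fun i => f i ⊓ g i) := (hom.map_inf f g).symm

include hom in
lemma map_sup' (f g : ∀ i, B i) : π f ⊔ π g = π (fun i => f i ⊔ g i) := (hom.map_sup f g).symm

include hom in
lemma map_bot' : (⊥ : C) = π (fun _ => ⊥) := hom.map_bot.symm

include hom in
lemma map_top' : (⊤ : C) = π (fun _ => ⊤) := hom.map_top.symm

include hom in
lemma map_lab : ∀ (k : ℕ) (f : ∀ i, B i), lab C k (π f) = π (fun i => lab (B i) k (f i))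
  | 0, f => by
    simp only [lab]
    rw [map_cyl' hom, map_diag' hom, map_inf' hom]
  | k + 1, f => by
    simp only [lab]
    rw [map_cyl' hom, map_diag' hom, map_inf' hom, map_lab k]

include hom in
lemma map_cylAll (f : ∀ i, B i) : cylAll C (π f) = π (fun i => cylAll (B i) (f i)) := by
  unfold cylAll
  induction List.finRange (r + 1) with
  | nil => rfl
  | cons j l ih =>
    rw [List.foldr_cons, ih, map_cyl' hom]
    rfl

include hom ker in
lemma los_le (f g : ∀ i, B i) : Los V (π f ≤ π g) (fun i => f i ≤ g i) := by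
  refine Los.congr (P := π (fun i => f i ⊔ g i) = π g) (Q := fun i => f i ⊔ g i = g i)
    (los_eq ker _ _) ?_ fun i => sup_eq_right
  rw [← map_sup' hom]
  exact sup_eq_right

include hom surj ker in
lemma los_isAtom (f : ∀ i, B i) : Los V (IsAtom (π f)) (fun i => IsAtom (f i)) := by
  have key : ∀ {α : Type} [BooleanAlgebra α] (a : α),
      (a ≠ ⊥ ∧ ∀ b, b ≤ a → b = ⊥ ∨ b = a) ↔ IsAtom a := by
    intro α _ a
    constructor
    · rintro ⟨h1, h2⟩
      refine ⟨h1, fun b hb => (h2 b hb.le).resolve_right hb.ne⟩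
    · intro h
      exact ⟨h.1, fun b hb => h.le_iff.1 hb⟩
  refine Los.congr (Los.and (Los.not (los_eq ker f (fun _ => ⊥))) (Los.all surj
    (P := fun b => b ≤ π f → b = π (fun _ => ⊥) ∨ b = π f)
    (Q := fun i b => b ≤ f i → b = ⊥ ∨ b = f i) fun g =>
      Los.imp (los_le hom ker g f) (Los.or (los_eq ker _ _) (los_eq ker _ _)))) ?_ ?_
  · rw [← map_bot' hom]; exact key _
  · intro i; exact key _

include hom ker in
lemma los_dist (f : ∀ i, B i) : Los V (Dist (π f)) (fun i => Dist (f i)) := by
  unfold Dist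
  refine Los.forall_fin fun j => Los.forall_fin fun k => Los.imp (Los.const _) ?_
  rw [map_diag' hom, map_inf' hom, map_bot' hom]
  exact los_eq ker _ _

include hom surj ker in
lemma los_adj (f g : ∀ i, B i) : Los V (Adj (π f) (π g)) (fun i => Adj (f i) (g i)) := by
  unfold Adj
  refine Los.ex surj fun m => ?_
  refine (los_isAtom hom surj ker m).and ((los_dist hom ker m).and (Los.and ?_ (Los.and ?_ ?_)))
  · rw [map_lab hom]; exact los_eq ker _ _
  · rw [map_lab hom]; exact los_eq ker _ _
  · refine Los.forall_fin fun j => Los.imp (Los.const _) ?_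
    rw [map_lab hom]; exact los_eq ker _ _

include hom surj ker in
lemma los_phiAt (p : Fin (r + 1) → ∀ i, B i) :
    Los V (PhiAt C (fun c => π (p c))) (fun i => PhiAt (B i) (fun c => p c i)) := by
  have key : ∀ (A : Alg (r + 1)) (p : Fin (r + 1) → A), PhiAt A p ↔
      ((∀ m : A, IsAtom m → Dist m → ∀ i : Fin (r + 1), ∃ c, lab A i.1 m ≤ p c) ∧
      (∀ c, ∀ x y z : A, x ≤ p c → y ≤ p c → z ≤ p c → Adj x y → Adj x z → y = z) ∧
      (∀ c, ∀ x y : A, x ≤ p c → y ≤ p c → Adj x y → Adj y x) ∧
      (∀ c, ∀ x : A, x ≤ p c → ¬ Adj x x) ∧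
      (∀ m : A, IsAtom m → Dist m → ∀ c, (∀ i : Fin (r + 1), lab A i.1 m ≤ p c) →
        ∃ i j : Fin (r + 1), Adj (lab A i.1 m) (lab A j.1 m))) := fun A p =>
    ⟨fun h => ⟨h.color, h.unique, h.symm, h.irrefl, h.link⟩,
      fun h => ⟨h.1, h.2.1, h.2.2.1, h.2.2.2.1, h.2.2.2.2⟩⟩
  refine Los.congr ?_ (key C _).symm (fun i => (key (B i) _).symm)
  refine Los.and ?_ (Los.and ?_ (Los.and ?_ (Los.and ?_ ?_)))
  · refine Los.all surj fun m => (los_isAtom hom surj ker m).imp ((los_dist hom ker m).imp
      (Los.forall_fin fun j => Los.exists_fin fun c => ?_))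
    rw [map_lab hom]; exact los_le hom ker _ _
  · refine Los.forall_fin fun c => Los.all surj fun x => Los.all surj fun y =>
      Los.all surj fun z => ?_
    exact (los_le hom ker _ _).imp ((los_le hom ker _ _).imp ((los_le hom ker _ _).imp
      ((los_adj hom surj ker _ _).imp ((los_adj hom surj ker _ _).imp (los_eq ker _ _)))))
  · refine Los.forall_fin fun c => Los.all surj fun x => Los.all surj fun y => ?_
    exact (los_le hom ker _ _).imp ((los_le hom ker _ _).imp
      ((los_adj hom surj ker _ _).imp (los_adj hom surj ker _ _)))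
  · refine Los.forall_fin fun c => Los.all surj fun x => ?_
    exact (los_le hom ker _ _).imp (los_adj hom surj ker _ _).not
  · refine Los.all surj fun m => (los_isAtom hom surj ker m).imp ((los_dist hom ker m).imp
      (Los.forall_fin fun c => Los.imp (Los.forall_fin fun j => ?_)
        (Los.exists_fin fun j => Los.exists_fin fun k => ?_)))
    · rw [map_lab hom]; exact los_le hom ker _ _
    · rw [map_lab hom, map_lab hom]; exact los_adj hom surj ker _ _

include hom surj ker in
theorem los_phi : Los V (Phi C) (fun i => Phi (B i)) := by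
  unfold Phi
  refine Los.and (Los.all surj fun x => Los.imp (Los.not ?_) ?_) (Los.exTuple surj fun p => ?_)
  · rw [map_bot' hom]; exact los_eq ker _ _
  · rw [map_cylAll hom, map_top' hom]; exact los_eq ker _ _
  · exact los_phiAt hom surj ker p

include surj ker in
/-- Number of elements. -/
theorem los_card (k : ℕ) : Los V (∃ x : Fin k → C, ∀ a b, x a = x b → a = b)
    (fun i => ∃ x : Fin k → B i, ∀ a b, x a = x b → a = b) := by
  refine Los.exTuple surj fun f => Los.forall_fin fun a => Los.forall_fin fun b => ?_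
  exact (los_eq ker _ _).imp (Los.const _)

end los

end Pool.Agent.Helper91.Cyl
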