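import Mathlib

/-!
# A labelled structure on the natural numbers

The `r`-element subsets of `ℕ` carry labels; a label is a colour together with a vertex of the
perfect matching `ℕ × Bool` or the point at infinity. No `(r+1)`-element set is bad: either two of
its labels have different colours, or two of its labels are partners.
-/

open Function

namespace Pool.Agent.Helper91.Cyl

/-- Labels. -/
abbrev Lbl (r : ℕ) : Type := Fin (r + 1) × Option (ℕ × Bool)

/-- The partner of a vertex; infinity is its own partner. -/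
def partner : Option (ℕ × Bool) → Option (ℕ × Bool)
  | none => none
  | some (k, b) => some (k, !b)

lemma partner_partner (o : Option (ℕ × Bool)) : partner (partner o) = o := by
  rcases o with _ | ⟨k, b⟩ <;> simp [partner]

/-- Truncation of vertices. -/
def truncO (N : ℕ) : Option (ℕ × Bool) → Option (ℕ × Bool)
  | none => none
  | some (k, b) => if k < N then some (k, b) else none

lemma truncO_partner (N : ℕ) (o : Option (ℕ × Bool)) :
    truncO N (partner o) = partner (truncO N o) := by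
  rcases o with _ | ⟨k, b⟩
  · rfl
  · simp only [partner, truncO]
    split_ifs <;> rfl

/-- Truncation of labels. -/
def trunc {r : ℕ} (N : ℕ) (l : Lbl r) : Lbl r := (l.1, truncO N l.2)

lemma truncO_truncO {N N' : ℕ} (h : N ≤ N') (o : Option (ℕ × Bool)) :
    truncO N (truncO N' o) = truncO N o := by
  rcases o with _ | ⟨k, b⟩
  · rfl
  · simp only [truncO]
    by_cases h1 : k < N
    · rw [if_pos (by omega : k < N')]
    · by_cases h2 : k < N'
      · rw [if_pos h2]
      · rw [if_neg h2, if_neg h1]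

/-- Good families of labels. -/
def Good {r : ℕ} {ι : Type*} (l : ι → Lbl r) : Prop :=
  (∃ i j, (l i).1 ≠ (l j).1) ∨ ∃ i j, i ≠ j ∧ (l j).2 = partner (l i).2

/-- The family of labels `μ a` (for `a ∈ P`) together with one more label `l` is good. -/
def GoodExt {r : ℕ} (P : Finset ℕ) (μ : ℕ → Lbl r) (l : Lbl r) : Prop :=
  (∃ a ∈ P, ∃ b ∈ P, (μ a).1 ≠ (μ b).1) ∨ (∃ a ∈ P, (μ a).1 ≠ l.1) ∨
    (∃ a ∈ P, ∃ b ∈ P, a ≠ b ∧ (μ b).2 = partner (μ a).2) ∨ ∃ a ∈ P, (μ a).2 = partner l.2

lemma exists_fresh {r : ℕ} (P : Finset ℕ) (hP : P.card ≤ r) (μ : ℕ → Lbl r) :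
    ∃ c : Fin (r + 1), ∀ a ∈ P, (μ a).1 ≠ c := by
  classical
  by_contra hno
  push Not at hno
  have h1 : (Finset.univ : Finset (Fin (r + 1))) ⊆ P.image (fun a => (μ a).1) := by
    intro c _
    obtain ⟨a, ha, hc⟩ := hno c
    exact Finset.mem_image.2 ⟨a, ha, hc⟩
  have h2 := (Finset.card_le_card h1).trans Finset.card_image_le
  simp at h2
  omega

open Classical in
/-- A colour not used by `μ` on `P`. -/
noncomputable def fresh {r : ℕ} (P : Finset ℕ) (μ : ℕ → Lbl r) : Fin (r + 1) :=
  if h : ∃ c : Fin (r + 1), ∀ a ∈ P, (μ a).1 ≠ c then h.choose else 0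

lemma fresh_spec {r : ℕ} {P : Finset ℕ} (hP : P.card ≤ r) (μ : ℕ → Lbl r) {a : ℕ} (ha : a ∈ P) :
    (μ a).1 ≠ fresh P μ := by
  unfold fresh
  rw [dif_pos (exists_fresh P hP μ)]
  exact (exists_fresh P hP μ).choose_spec a ha

section model

variable {r : ℕ} (code : ℕ → Finset ℕ × (ℕ → Lbl r))

open Classical in
/-- The label of the set `insert z Q`, where all elements of `Q` are below `z`. -/
noncomputable def labAt (z : ℕ) (Q : Finset ℕ) : Lbl r :=
  if h : (code z).1.Nonempty ∧ (code z).1.sup id < z then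
    if (code z).1.card = r ∧ GoodExt (code z).1 (code z).2
        (labAt ((code z).1.sup id) ((code z).1.erase ((code z).1.sup id))) then
      if h' : ∃ a ∈ (code z).1, Q = (code z).1.erase a then (code z).2 h'.choose
      else (fresh (code z).1 (code z).2, none)
    else (0, none)
  else (0, none)
termination_by z
decreasing_by exact h.2

/-- The label of a set. -/
noncomputable def lb (S : Finset ℕ) : Lbl r := labAt code (S.sup id) (S.erase (S.sup id))

lemma erase_inj {P : Finset ℕ} {a b : ℕ} (ha : a ∈ P) (hb : b ∈ P)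
    (h : P.erase a = P.erase b) : a = b := by
  by_contra hne
  have h1 : b ∈ P.erase a := Finset.mem_erase.2 ⟨Ne.symm hne, hb⟩
  rw [h] at h1
  simp at h1

lemma labAt_valid {z : ℕ} {Q : Finset ℕ} (h1 : (code z).1.Nonempty) (h2 : (code z).1.sup id < z)
    (h3 : (code z).1.card = r) (h4 : GoodExt (code z).1 (code z).2 (lb code (code z).1))
    {a : ℕ} (ha : a ∈ (code z).1) (hQ : Q = (code z).1.erase a) :
    labAt code z Q = (code z).2 a := by
  classical
  rw [labAt, dif_pos ⟨h1, h2⟩, if_pos ⟨h3, h4⟩]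
  have hex : ∃ a ∈ (code z).1, Q = (code z).1.erase a := ⟨a, ha, hQ⟩
  rw [dif_pos hex]
  have h5 := hex.choose_spec
  rw [erase_inj h5.1 ha (h5.2.symm.trans hQ)]

lemma labAt_fresh {z : ℕ} {Q : Finset ℕ} (h1 : (code z).1.Nonempty) (h2 : (code z).1.sup id < z)
    (h3 : (code z).1.card = r) (h4 : GoodExt (code z).1 (code z).2 (lb code (code z).1))
    (h5 : ¬ ∃ a ∈ (code z).1, Q = (code z).1.erase a) :
    labAt code z Q = (fresh (code z).1 (code z).2, none) := by
  classical
  rw [labAt, dif_pos ⟨h1, h2⟩, if_pos ⟨h3, h4⟩, dif_neg h5]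

lemma labAt_invalid {z : ℕ} {Q : Finset ℕ} (h : ¬ ((code z).1.Nonempty ∧ (code z).1.sup id < z ∧
    (code z).1.card = r ∧ GoodExt (code z).1 (code z).2 (lb code (code z).1))) :
    labAt code z Q = (0, none) := by
  classical
  rw [labAt]
  by_cases h1 : (code z).1.Nonempty ∧ (code z).1.sup id < z
  · rw [dif_pos h1, if_neg]
    rintro ⟨h3, h4⟩
    exact h ⟨h1.1, h1.2, h3, h4⟩
  · rw [dif_neg h1]

lemma sup_insert_of_lt {Q : Finset ℕ} {z : ℕ} (h : ∀ q ∈ Q, q < z) :
    (insert z Q).sup id = z := by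
  rw [Finset.sup_insert]
  refine sup_eq_left.2 (Finset.sup_le fun q hq => (h q hq).le)

lemma lb_insert {Q : Finset ℕ} {z : ℕ} (h : ∀ q ∈ Q, q < z) :
    lb code (insert z Q) = labAt code z Q := by
  unfold lb
  rw [sup_insert_of_lt h, Finset.erase_insert fun hz => lt_irrefl _ (h z hz)]

/-- There are no bad sets. -/
theorem consistent (hr : 2 ≤ r) (S : Finset ℕ) (hS : S.card = r + 1) :
    (∃ a ∈ S, ∃ b ∈ S, (lb code (S.erase a)).1 ≠ (lb code (S.erase b)).1) ∨
      ∃ a ∈ S, ∃ b ∈ S, a ≠ b ∧ (lb code (S.erase b)).2 = partner (lb code (S.erase a)).2 := by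
  classical
  have hne : S.Nonempty := Finset.card_pos.1 (by omega)
  have hz : S.max' hne ∈ S := S.max'_mem hne
  set z := S.max' hne with hzdef
  set R := S.erase z with hR
  have hRc : R.card = r := by rw [hR, Finset.card_erase_of_mem hz, hS]; rfl
  have hlt : ∀ q ∈ R, q < z := by
    intro q hq
    exact lt_of_le_of_ne (S.le_max' q (Finset.mem_of_mem_erase hq)) (Finset.ne_of_mem_erase hq)
  -- labels of the sets with maximum `z`
  have hlab : ∀ a ∈ R, lb code (S.erase a) = labAt code z (R.erase a) := by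
    intro a ha
    have h1 : S.erase a = insert z (R.erase a) := by
      rw [hR, Finset.erase_right_comm, Finset.insert_erase]
      exact Finset.mem_erase.2 ⟨(hlt a ha).ne', hz⟩
    rw [h1, lb_insert]
    intro q hq
    exact hlt q (Finset.mem_of_mem_erase hq)
  have hRS : ∀ a ∈ R, a ∈ S := fun a ha => Finset.mem_of_mem_erase ha
  obtain ⟨a₁, ha₁, a₂, ha₂, h12⟩ := Finset.one_lt_card.1 (by omega : 1 < R.card)
  by_cases hval : (code z).1.Nonempty ∧ (code z).1.sup id < z ∧ (code z).1.card = r ∧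
      GoodExt (code z).1 (code z).2 (lb code (code z).1)
  · obtain ⟨v1, v2, v3, v4⟩ := hval
    by_cases hRP : R = (code z).1
    · -- the coded set
      have hμ : ∀ a ∈ R, lb code (S.erase a) = (code z).2 a := by
        intro a ha
        rw [hlab a ha]
        exact labAt_valid code v1 v2 v3 v4 (hRP ▸ ha) (by rw [hRP])
      rw [← hRP] at v4
      rcases v4 with ⟨a, ha, b, hb, h⟩ | ⟨a, ha, h⟩ | ⟨a, ha, b, hb, hab, h⟩ | ⟨a, ha, h⟩
      · exact Or.inl ⟨a, hRS a ha, b, hRS b hb, by rw [hμ a ha, hμ b hb]; exact h⟩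
      · exact Or.inl ⟨a, hRS a ha, z, hz, by rw [hμ a ha]; exact h⟩
      · exact Or.inr ⟨a, hRS a ha, b, hRS b hb, hab, by rw [hμ a ha, hμ b hb]; exact h⟩
      · exact Or.inr ⟨z, hz, a, hRS a ha, (hlt a ha).ne', by rw [hμ a ha]; exact h⟩
    · -- at most one of the sets with maximum `z` has a prescribed label
      have hone : ∀ a ∈ R, ∀ b ∈ R, a ≠ b → (∃ c ∈ (code z).1, R.erase a = (code z).1.erase c) →
          ¬ ∃ c ∈ (code z).1, R.erase b = (code z).1.erase c := by
        rintro a ha b hb hab ⟨c, hc, h1⟩ ⟨d, hd, h2⟩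
        refine hRP (Finset.eq_of_subset_of_card_le ?_ (by rw [hRc, v3]))
        intro x hx
        by_cases hxa : x = a
        · have : x ∈ R.erase b := Finset.mem_erase.2 ⟨by rw [hxa]; exact hab, hx⟩
          rw [h2] at this
          exact Finset.mem_of_mem_erase this
        · have : x ∈ R.erase a := Finset.mem_erase.2 ⟨hxa, hx⟩
          rw [h1] at this
          exact Finset.mem_of_mem_erase this
      have key : ∀ a ∈ R, ∀ b ∈ R, a ≠ b → (∃ c ∈ (code z).1, R.erase a = (code z).1.erase c) →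
          (lb code (S.erase a)).1 ≠ (lb code (S.erase b)).1 := by
        rintro a ha b hb hab hex
        have h1 := hone a ha b hb hab hex
        obtain ⟨c, hc, h2⟩ := hex
        rw [hlab a ha, hlab b hb, labAt_valid code v1 v2 v3 v4 hc h2,
          labAt_fresh code v1 v2 v3 v4 h1]
        exact fresh_spec (by omega) _ hc
      by_cases h1 : ∃ c ∈ (code z).1, R.erase a₁ = (code z).1.erase c
      · exact Or.inl ⟨a₁, hRS _ ha₁, a₂, hRS _ ha₂, key a₁ ha₁ a₂ ha₂ h12 h1⟩
      · by_cases h2 : ∃ c ∈ (code z).1, R.erase a₂ = (code z).1.erase c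
        · exact Or.inl ⟨a₂, hRS _ ha₂, a₁, hRS _ ha₁, key a₂ ha₂ a₁ ha₁ h12.symm h2⟩
        · refine Or.inr ⟨a₁, hRS _ ha₁, a₂, hRS _ ha₂, h12, ?_⟩
          rw [hlab _ ha₁, hlab _ ha₂, labAt_fresh code v1 v2 v3 v4 h1,
            labAt_fresh code v1 v2 v3 v4 h2]
          rfl
  · refine Or.inr ⟨a₁, hRS _ ha₁, a₂, hRS _ ha₂, h12, ?_⟩
    rw [hlab _ ha₁, hlab _ ha₂, labAt_invalid code hval, labAt_invalid code hval]
    rfl

/-- Every pair of a finite set and a function has arbitrarily large codes. -/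
def IsCode : Prop := ∀ (P : Finset ℕ) (μ : ℕ → Lbl r) (N : ℕ), ∃ z, N ≤ z ∧ (code z).1 = P ∧
  ∀ a ∈ P, (code z).2 a = μ a

/-- The extension property. -/
theorem extension (hcode : IsCode code) (hr : 0 < r) (P : Finset ℕ) (hP : P.card = r)
    (μ : ℕ → Lbl r) (hμ : GoodExt P μ (lb code P)) :
    ∃ z, z ∉ P ∧ ∀ a ∈ P, lb code (insert z (P.erase a)) = μ a := by
  obtain ⟨z, hz, h1, h2⟩ := hcode P μ (P.sup id + 1)
  have hlt : ∀ q ∈ P, q < z := fun q hq => by
    have : id q ≤ P.sup id := Finset.le_sup hq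
    simp only [id_eq] at this
    omega
  refine ⟨z, fun hzP => lt_irrefl _ (hlt z hzP), fun a ha => ?_⟩
  rw [lb_insert code (fun q hq => hlt q (Finset.mem_of_mem_erase hq))]
  have hne : P.Nonempty := ⟨a, ha⟩
  have h3 : GoodExt (code z).1 (code z).2 (lb code (code z).1) := by
    rw [h1]
    rcases hμ with ⟨a, ha, b, hb, h⟩ | ⟨a, ha, h⟩ | ⟨a, ha, b, hb, hab, h⟩ | ⟨a, ha, h⟩
    · exact Or.inl ⟨a, ha, b, hb, by rw [h2 a ha, h2 b hb]; exact h⟩
    · exact Or.inr (Or.inl ⟨a, ha, by rw [h2 a ha]; exact h⟩)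
    · exact Or.inr (Or.inr (Or.inl ⟨a, ha, b, hb, hab, by rw [h2 a ha, h2 b hb]; exact h⟩))
    · exact Or.inr (Or.inr (Or.inr ⟨a, ha, by rw [h2 a ha]; exact h⟩))
  rw [labAt_valid code (by rw [h1]; exact hne) (by rw [h1]; omega) (by rw [h1, hP]) h3
    (by rw [h1]; exact ha) (by rw [h1]), h2 a ha]

end model

/-- Codes exist. -/
theorem exists_code (r : ℕ) : ∃ code : ℕ → Finset ℕ × (ℕ → Lbl r), IsCode code := by
  classical
  -- pairs of a finite set and a list of labels
  have : Countable (Finset ℕ × List (ℕ × Lbl r)) := inferInstance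
  obtain ⟨f, hf⟩ := exists_surjective_nat (Finset ℕ × List (ℕ × Lbl r))
  let val : List (ℕ × Lbl r) → ℕ → Lbl r := fun l a =>
    ((l.find? (fun p => decide (p.1 = a))).map Prod.snd).getD (0, none)
  have hval : ∀ (P : Finset ℕ) (μ : ℕ → Lbl r), ∀ a ∈ P,
      val (P.toList.map fun a => (a, μ a)) a = μ a := by
    intro P μ a ha
    have key : ∀ l : List ℕ, a ∈ l → (l.map fun a => (a, μ a)).find? (fun p => decide (p.1 = a)) =
        some (a, μ a) := by
      intro l
      induction l with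
      | nil => intro h; simp at h
      | cons b l ih =>
        intro h
        rw [List.map_cons, List.find?_cons]
        by_cases hb : b = a
        · subst hb; simp
        · have hb' : decide ((b, μ b).1 = a) = false := by simpa using hb
          rw [hb']
          exact ih ((List.mem_cons.1 h).resolve_left (Ne.symm hb))
    simp only [val]
    rw [key _ (Finset.mem_toList.2 ha)]
    rfl
  refine ⟨fun z => ((f z.unpair.1).1, val (f z.unpair.1).2), fun P μ N => ?_⟩
  obtain ⟨k, hk⟩ := hf (P, P.toList.map fun a => (a, μ a))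
  refine ⟨Nat.pair k N, Nat.right_le_pair k N, ?_, fun a ha => ?_⟩
  · simp only [Nat.unpair_pair, hk]
  · simp only [Nat.unpair_pair, hk]
    exact hval P μ a ha

end Pool.Agent.Helper91.Cyl
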