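import Mathlib
import Pool.Agent.Helper91.Cyl.Model

/-!
# Types of tuples in the labelled structure
-/

open Function

namespace Pool.Agent.Helper91.Cyl

section tuples

variable {r : ℕ} (code : ℕ → Finset ℕ × (ℕ → Lbl r))

/-- The set of the entries other than the one at `i`. -/
def offSet (a : Fin (r + 1) → ℕ) (i : Fin (r + 1)) : Finset ℕ := (Finset.univ.erase i).image a

/-- The entries other than the one at `i` are distinct. -/
def InjOff {U : Type} (a : Fin (r + 1) → U) (i : Fin (r + 1)) : Prop :=
  ∀ j k, j ≠ i → k ≠ i → a j = a k → j = k

/-- The label at coordinate `i`. -/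
noncomputable def labOff (a : Fin (r + 1) → ℕ) (i : Fin (r + 1)) : Lbl r := lb code (offSet a i)

lemma offSet_congr {a b : Fin (r + 1) → ℕ} {i : Fin (r + 1)} (h : ∀ j, j ≠ i → a j = b j) :
    offSet a i = offSet b i := by
  unfold offSet
  refine Finset.image_congr fun j hj => h j ?_
  rw [Finset.mem_coe, Finset.mem_erase] at hj
  exact hj.1

lemma offSet_update (a : Fin (r + 1) → ℕ) (i : Fin (r + 1)) (z : ℕ) :
    offSet (update a i z) i = offSet a i :=
  offSet_congr fun j hj => update_of_ne hj _ _

lemma mem_offSet {a : Fin (r + 1) → ℕ} {i : Fin (r + 1)} {x : ℕ} :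
    x ∈ offSet a i ↔ ∃ j, j ≠ i ∧ a j = x := by
  simp [offSet]

lemma InjOff.congr {U W : Type} {a : Fin (r + 1) → U} {b : Fin (r + 1) → W} {i : Fin (r + 1)}
    (h : ∀ j k, j ≠ i → k ≠ i → (a j = a k ↔ b j = b k)) (ha : InjOff a i) : InjOff b i :=
  fun j k hj hk hjk => ha j k hj hk ((h j k hj hk).2 hjk)

lemma InjOff.update {U : Type} {a : Fin (r + 1) → U} {i : Fin (r + 1)} (h : InjOff a i) (z : U) :
    InjOff (update a i z) i :=
  h.congr fun j k hj hk => by rw [update_of_ne hj, update_of_ne hk]

lemma InjOff.card {a : Fin (r + 1) → ℕ} {i : Fin (r + 1)} (h : InjOff a i) :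
    (offSet a i).card = r := by
  unfold offSet
  rw [Finset.card_image_of_injOn, Finset.card_erase_of_mem (Finset.mem_univ i), Finset.card_univ,
    Fintype.card_fin]
  · rfl
  · intro j hj k hk hjk
    rw [Finset.mem_coe, Finset.mem_erase] at hj hk
    exact h j k hj.1 hk.1 hjk

/-- Equivalence of tuples with respect to the truncated labels. -/
def Eqv (N : ℕ) (a b : Fin (r + 1) → ℕ) : Prop :=
  (∀ j k, a j = a k ↔ b j = b k) ∧
    ∀ i, InjOff a i → trunc N (labOff code a i) = trunc N (labOff code b i)

/-- Equivalence of tuples with coordinate `i` removed. -/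
def Pre (N : ℕ) (i : Fin (r + 1)) (a b : Fin (r + 1) → ℕ) : Prop :=
  (∀ j k, j ≠ i → k ≠ i → (a j = a k ↔ b j = b k)) ∧
    (InjOff a i → trunc N (labOff code a i) = trunc N (labOff code b i))

variable {code}

lemma Eqv.refl (N : ℕ) (a : Fin (r + 1) → ℕ) : Eqv code N a a := ⟨fun _ _ => Iff.rfl, fun _ _ => rfl⟩

lemma Eqv.symm {N : ℕ} {a b : Fin (r + 1) → ℕ} (h : Eqv code N a b) : Eqv code N b a :=
  ⟨fun j k => (h.1 j k).symm, fun i hi => (h.2 i (hi.congr fun j k _ _ => (h.1 j k).symm)).symm⟩

lemma Eqv.trans {N : ℕ} {a b c : Fin (r + 1) → ℕ} (h : Eqv code N a b) (h' : Eqv code N b c) :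
    Eqv code N a c :=
  ⟨fun j k => (h.1 j k).trans (h'.1 j k), fun i hi => (h.2 i hi).trans
    (h'.2 i (hi.congr fun j k _ _ => h.1 j k))⟩

lemma trunc_trunc {N N' : ℕ} (h : N ≤ N') (l : Lbl r) : trunc N (trunc N' l) = trunc N l := by
  simp only [trunc, truncO_truncO h]

lemma Eqv.mono {N N' : ℕ} (hN : N ≤ N') {a b : Fin (r + 1) → ℕ} (h : Eqv code N' a b) :
    Eqv code N a b :=
  ⟨h.1, fun i hi => by rw [← trunc_trunc hN, h.2 i hi, trunc_trunc hN]⟩

lemma Eqv.pre {N : ℕ} {a b : Fin (r + 1) → ℕ} (h : Eqv code N a b) (i : Fin (r + 1)) (z : ℕ) :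
    Pre code N i (update a i z) b := by
  refine ⟨fun j k hj hk => ?_, fun hi => ?_⟩
  · rw [update_of_ne hj, update_of_ne hk]; exact h.1 j k
  · have h1 : InjOff a i := hi.congr fun j k hj hk => by
      rw [update_of_ne hj, update_of_ne hk]
    have h2 : labOff code (update a i z) i = labOff code a i := by
      unfold labOff; rw [offSet_update]
    rw [h2]; exact h.2 i h1

/-- Transfer of goodness. -/
lemma Good.transfer {l : Fin (r + 1) → Lbl r} (h : Good l) (N : ℕ) (i : Fin (r + 1)) (l₁ : Lbl r)
    (h₁ : trunc N l₁ = trunc N (l i)) : ∃ l' : Fin (r + 1) → Lbl r, l' i = l₁ ∧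
      (∀ k, trunc N (l' k) = trunc N (l k)) ∧ Good l' := by
  have hc : l₁.1 = (l i).1 := (Prod.mk.inj h₁).1
  have ho : truncO N l₁.2 = truncO N (l i).2 := (Prod.mk.inj h₁).2
  rcases h with ⟨j, k, hjk⟩ | ⟨j, k, hjk, hp⟩
  · -- different colours
    refine ⟨update l i l₁, update_self _ _ _, fun k => ?_, Or.inl ⟨j, k, ?_⟩⟩
    · by_cases hk : k = i
      · subst hk; rw [update_self]; exact h₁
      · rw [update_of_ne hk]
    · have hcol : ∀ m, (update l i l₁ m).1 = (l m).1 := by
        intro m
        by_cases hm : m = i
        · subst hm; rw [update_self]; exact hc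
        · rw [update_of_ne hm]
      rw [hcol, hcol]; exact hjk
  · -- partners
    have hp' : (l j).2 = partner (l k).2 := by rw [hp, partner_partner]
    by_cases hj : j = i
    · subst hj
      refine ⟨update (update l j l₁) k ((l k).1, partner l₁.2), ?_, fun m => ?_,
        Or.inr ⟨j, k, hjk, ?_⟩⟩
      · rw [update_of_ne hjk, update_self]
      · by_cases hm : m = k
        · subst hm
          rw [update_self]
          simp only [trunc]
          rw [truncO_partner, ho, hp, truncO_partner]
        · rw [update_of_ne hm]
          by_cases hmj : m = j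
          · subst hmj; rw [update_self]; exact h₁
          · rw [update_of_ne hmj]
      · rw [update_self, update_of_ne hjk, update_self]
    · by_cases hk : k = i
      · subst hk
        refine ⟨update (update l k l₁) j ((l j).1, partner l₁.2), ?_, fun m => ?_,
          Or.inr ⟨k, j, Ne.symm hjk, ?_⟩⟩
        · rw [update_of_ne (Ne.symm hjk), update_self]
        · by_cases hm : m = j
          · subst hm
            rw [update_self]
            simp only [trunc]
            rw [truncO_partner, ho, hp', truncO_partner]
          · rw [update_of_ne hm]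
            by_cases hmk : m = k
            · subst hmk; rw [update_self]; exact h₁
            · rw [update_of_ne hmk]
        · rw [update_self, update_of_ne (Ne.symm hjk), update_self]
      · refine ⟨update l i l₁, update_self _ _ _, fun m => ?_, Or.inr ⟨j, k, hjk, ?_⟩⟩
        · by_cases hm : m = i
          · subst hm; rw [update_self]; exact h₁
          · rw [update_of_ne hm]
        · rw [update_of_ne hj, update_of_ne hk]; exact hp

/-- Replacing infinite labels by finite ones. -/
lemma Good.finite {l : Fin (r + 1) → Lbl r} (h : Good l) (N : ℕ) :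
    ∃ l' : Fin (r + 1) → Lbl r, (∀ k, trunc N (l' k) = trunc N (l k)) ∧ (∀ k, (l' k).2 ≠ none) ∧
      Good l' := by
  classical
  have key : ∀ k₀ : Fin (r + 1), ∀ k, truncO N (if (l k).2 = none then some (N, decide (k = k₀))
      else (l k).2) = truncO N (l k).2 := by
    intro k₀ k
    split_ifs with hk
    · rw [hk]; simp [truncO]
    · rfl
  have key2 : ∀ k₀ : Fin (r + 1), ∀ k, (if (l k).2 = none then some (N, decide (k = k₀))
      else (l k).2) ≠ none := by
    intro k₀ k
    split_ifs with hk
    · simp
    · exact hk
  rcases h with ⟨j, k, hjk⟩ | ⟨j, k, hjk, hp⟩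
  · refine ⟨fun m => ((l m).1, if (l m).2 = none then some (N, decide (m = 0)) else (l m).2),
      fun m => ?_, fun m => key2 0 m, Or.inl ⟨j, k, hjk⟩⟩
    simp only [trunc]
    rw [key 0 m]
  · refine ⟨fun m => ((l m).1, if (l m).2 = none then some (N, decide (m = k)) else (l m).2),
      fun m => ?_, fun m => key2 k m, Or.inr ⟨j, k, hjk, ?_⟩⟩
    · simp only [trunc]
      rw [key k m]
    · simp only
      by_cases h0 : (l j).2 = none
      · have h1 : (l k).2 = none := by rw [hp, h0]; rfl
        rw [if_pos h0, if_pos h1]
        simp [partner, hjk]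
      · have h1 : (l k).2 ≠ none := by
          rw [hp]
          rcases h2 : (l j).2 with _ | ⟨m, b⟩
          · exact absurd h2 h0
          · simp [partner]
        rw [if_neg h0, if_neg h1]
        exact hp

/-- The labels of an injective tuple are good. -/
lemma good_labOff (hr : 2 ≤ r) {a : Fin (r + 1) → ℕ} (ha : Injective a) :
    Good (labOff code a) := by
  classical
  have hS : (Finset.univ.image a).card = r + 1 := by
    rw [Finset.card_image_of_injective _ ha, Finset.card_univ, Fintype.card_fin]
  have herase : ∀ i, (Finset.univ.image a).erase (a i) = offSet a i := by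
    intro i
    ext x
    rw [Finset.mem_erase, mem_offSet]
    constructor
    · rintro ⟨h1, h2⟩
      obtain ⟨j, -, rfl⟩ := Finset.mem_image.1 h2
      exact ⟨j, fun h => h1 (by rw [h]), rfl⟩
    · rintro ⟨j, hj, rfl⟩
      exact ⟨fun h => hj (ha h), Finset.mem_image_of_mem _ (Finset.mem_univ _)⟩
  rcases consistent code hr _ hS with ⟨x, hx, y, hy, h⟩ | ⟨x, hx, y, hy, hxy, h⟩
  · obtain ⟨i, -, rfl⟩ := Finset.mem_image.1 hx
    obtain ⟨j, -, rfl⟩ := Finset.mem_image.1 hy
    rw [herase, herase] at h
    exact Or.inl ⟨i, j, h⟩
  · obtain ⟨i, -, rfl⟩ := Finset.mem_image.1 hx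
    obtain ⟨j, -, rfl⟩ := Finset.mem_image.1 hy
    rw [herase, herase] at h
    exact Or.inr ⟨i, j, fun hij => hxy (by rw [hij]), h⟩

variable (hcode : IsCode code) (hr : 2 ≤ r)
include hcode hr

/-- Prescribing the label of a set with a given part. -/
lemma exists_lb_insert (Q : Finset ℕ) (hQ : Q.card + 1 = r) (l : Lbl r) :
    ∃ z, z ∉ Q ∧ lb code (insert z Q) = l := by
  classical
  obtain ⟨p, hp⟩ := Infinite.exists_notMem_finset Q
  obtain ⟨q, hq⟩ : Q.Nonempty := Finset.card_pos.1 (by omega)
  obtain ⟨c, hc⟩ : ∃ c : Fin (r + 1), c ≠ l.1 := by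
    have : Nontrivial (Fin (r + 1)) := Fin.nontrivial_iff_two_le.2 (by omega)
    exact exists_ne _
  have hpq : p ≠ q := fun h => hp (h ▸ hq)
  obtain ⟨z, hz, hz'⟩ := extension code hcode (by omega) (insert p Q)
    (by rw [Finset.card_insert_of_notMem hp]; exact hQ)
    (fun x => if x = p then l else (c, none))
    (Or.inl ⟨p, Finset.mem_insert_self _ _, q, Finset.mem_insert_of_mem hq, by
      show (if p = p then l else (c, none)).1 ≠ (if q = p then l else (c, none)).1
      rw [if_pos rfl, if_neg (Ne.symm hpq)]; exact Ne.symm hc⟩)
  refine ⟨z, fun h => hz (Finset.mem_insert_of_mem h), ?_⟩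
  have := hz' p (Finset.mem_insert_self _ _)
  rw [Finset.erase_insert hp] at this
  simpa using this

/-- Prescribing the labels of a tuple of which all entries but one are given. -/
lemma exists_entry (a : Fin (r + 1) → ℕ) (i : Fin (r + 1)) (ha : InjOff a i)
    (l : Fin (r + 1) → Lbl r) (hl : Good l) (hi : l i = labOff code a i) :
    ∃ z, z ∉ offSet a i ∧ ∀ k, labOff code (update a i z) k = l k := by
  classical
  -- the function on the entries
  let μ : ℕ → Lbl r := fun x => if h : ∃ k, k ≠ i ∧ a k = x then l h.choose else (0, none)
  have hμ : ∀ k, k ≠ i → μ (a k) = l k := by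
    intro k hk
    have hex : ∃ k', k' ≠ i ∧ a k' = a k := ⟨k, hk, rfl⟩
    simp only [μ, dif_pos hex]
    rw [ha _ _ hex.choose_spec.1 hk hex.choose_spec.2]
  have hmem : ∀ k, k ≠ i → a k ∈ offSet a i := fun k hk => mem_offSet.2 ⟨k, hk, rfl⟩
  have hgood : GoodExt (offSet a i) μ (lb code (offSet a i)) := by
    have hi' : lb code (offSet a i) = l i := hi.symm
    rw [hi']
    rcases hl with ⟨j, k, h⟩ | ⟨j, k, hjk, h⟩
    · by_cases hj : j = i
      · subst hj
        have hk : k ≠ j := fun hk => h (by rw [hk])
        exact Or.inr (Or.inl ⟨a k, hmem k hk, by rw [hμ k hk]; exact Ne.symm h⟩)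
      · by_cases hk : k = i
        · subst hk
          exact Or.inr (Or.inl ⟨a j, hmem j hj, by rw [hμ j hj]; exact h⟩)
        · exact Or.inl ⟨a j, hmem j hj, a k, hmem k hk, by rw [hμ j hj, hμ k hk]; exact h⟩
    · by_cases hj : j = i
      · subst hj
        exact Or.inr (Or.inr (Or.inr ⟨a k, hmem k (Ne.symm hjk), by
          rw [hμ k (Ne.symm hjk)]; exact h⟩))
      · by_cases hk : k = i
        · subst hk
          exact Or.inr (Or.inr (Or.inr ⟨a j, hmem j hj, by
            rw [hμ j hj, h, partner_partner]⟩))
        · exact Or.inr (Or.inr (Or.inl ⟨a j, hmem j hj, a k, hmem k hk,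
            fun h' => hjk (ha j k hj hk h'), by rw [hμ j hj, hμ k hk]; exact h⟩))
  obtain ⟨z, hz, hz'⟩ := extension code hcode (by omega) (offSet a i) ha.card μ hgood
  refine ⟨z, hz, fun k => ?_⟩
  by_cases hk : k = i
  · subst hk
    unfold labOff
    rw [offSet_update, hi]
    rfl
  · have h1 := hz' (a k) (hmem k hk)
    rw [hμ k hk] at h1
    rw [← h1]
    unfold labOff
    congr 1
    ext x
    rw [mem_offSet, Finset.mem_insert, Finset.mem_erase, mem_offSet]
    constructor
    · rintro ⟨j, hj, rfl⟩
      by_cases hji : j = i
      · subst hji; rw [update_self]; exact Or.inl rfl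
      · rw [update_of_ne hji]
        exact Or.inr ⟨fun h => hj (ha j k hji hk h), j, hji, rfl⟩
    · rintro (rfl | ⟨h2, j, hj, rfl⟩)
      · exact ⟨i, Ne.symm hk, update_self _ _ _⟩
      · exact ⟨j, fun h => h2 (by rw [h]), update_of_ne hj _ _⟩

/-- The extension lemma for tuples. -/
theorem exists_update {N : ℕ} {i : Fin (r + 1)} {b a : Fin (r + 1) → ℕ} (h : Pre code N i b a) :
    ∃ z, Eqv code N b (update a i z) := by
  classical
  obtain ⟨hker, hlab⟩ := h
  by_cases h1 : ∃ k, k ≠ i ∧ b k = b i
  · -- the entry at `i` is equal to another entry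
    obtain ⟨k, hki, hk⟩ := h1
    refine ⟨a k, ?_, ?_⟩
    · intro j l
      by_cases hj : j = i
      · by_cases hl : l = i
        · rw [hj, hl]; simp
        · subst hj
          rw [update_self, update_of_ne hl, ← hk]
          exact hker k l hki hl
      · by_cases hl : l = i
        · subst hl
          rw [update_self, update_of_ne hj, ← hk]
          exact hker j k hj hki
        · rw [update_of_ne hj, update_of_ne hl]
          exact hker j l hj hl
    · intro j hj
      -- `j` is `i` or `k`
      have hjk : j = i ∨ j = k := by
        by_contra hno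
        push Not at hno
        exact hki (hj k i (Ne.symm hno.2) (Ne.symm hno.1) hk)
      have hoff : offSet b k = offSet b i := by
        ext x
        rw [mem_offSet, mem_offSet]
        constructor
        · rintro ⟨m, hm, rfl⟩
          by_cases hmi : m = i
          · exact ⟨k, hki, by rw [hmi, hk]⟩
          · exact ⟨m, hmi, rfl⟩
        · rintro ⟨m, hm, rfl⟩
          by_cases hmk : m = k
          · exact ⟨i, Ne.symm hki, by rw [hmk, hk]⟩
          · exact ⟨m, hmk, rfl⟩
      have hoff' : offSet (update a i (a k)) k = offSet a i := by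
        ext x
        rw [mem_offSet, mem_offSet]
        constructor
        · rintro ⟨m, hm, rfl⟩
          by_cases hmi : m = i
          · exact ⟨k, hki, by rw [hmi, update_self]⟩
          · exact ⟨m, hmi, by rw [update_of_ne hmi]⟩
        · rintro ⟨m, hm, rfl⟩
          by_cases hmk : m = k
          · exact ⟨i, Ne.symm hki, by rw [hmk, update_self]⟩
          · exact ⟨m, hmk, by rw [update_of_ne hm]⟩
      have hInj : InjOff b i := by
        rcases hjk with rfl | rfl
        · exact hj
        · intro m l hm hl hml
          by_cases hmk : m = j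
          · by_cases hlk : l = j
            · rw [hmk, hlk]
            · have := hj i l (Ne.symm hki) hlk (by rw [← hk, ← hml, hmk])
              exact absurd this.symm hl
          · by_cases hlk : l = j
            · have := hj m i hmk (Ne.symm hki) (by rw [hml, hlk, hk])
              exact absurd this hm
            · exact hj m l hmk hlk hml
      rcases hjk with rfl | rfl
      · have h2 := hlab hj
        unfold labOff at h2 ⊢
        rw [offSet_update]
        exact h2
      · have h2 := hlab hInj
        unfold labOff at h2 ⊢
        rw [hoff, hoff']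
        exact h2
  · push Not at h1
    -- the entry at `i` is new
    have hkernel : ∀ z, z ∉ offSet a i → ∀ j k, b j = b k ↔ update a i z j = update a i z k := by
      intro z hz j k
      have hz' : ∀ m, m ≠ i → a m ≠ z := fun m hm h => hz (mem_offSet.2 ⟨m, hm, h⟩)
      by_cases hj : j = i
      · by_cases hk : k = i
        · rw [hj, hk]; simp
        · subst hj
          rw [update_self, update_of_ne hk]
          exact ⟨fun h => absurd h.symm (h1 k hk), fun h => absurd h.symm (hz' k hk)⟩
      · by_cases hk : k = i
        · subst hk
          rw [update_self, update_of_ne hj]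
          exact ⟨fun h => absurd h (h1 j hj), fun h => absurd h (hz' j hj)⟩
        · rw [update_of_ne hj, update_of_ne hk]
          exact hker j k hj hk
    by_cases h2 : InjOff b i
    · -- all entries are distinct
      have hbinj : Injective b := by
        intro j k hjk
        by_cases hj : j = i
        · by_cases hk : k = i
          · rw [hj, hk]
          · exact absurd (by rw [← hjk, hj]) (h1 k hk)
        · by_cases hk : k = i
          · exact absurd (by rw [hjk, hk]) (h1 j hj)
          · exact h2 j k hj hk hjk
      have hainj : InjOff a i := h2.congr hker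
      obtain ⟨l, hli, hlt, hlg⟩ := (good_labOff (code := code) hr hbinj).transfer N i
        (labOff code a i) (hlab h2).symm
      obtain ⟨z, hz, hz'⟩ := exists_entry hcode hr a i hainj l hlg hli
      refine ⟨z, hkernel z hz, fun k _ => ?_⟩
      rw [hz' k, hlt k]
    · by_cases h3 : ∃ j, InjOff b j
      · obtain ⟨j, hj⟩ := h3
        -- two entries are equal
        unfold InjOff at h2
        push Not at h2
        obtain ⟨m, l, hm, hl, hml, hne⟩ := h2
        have hmem : ∀ j, InjOff b j → j = m ∨ j = l := by
          intro j hj
          by_contra hno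
          push Not at hno
          exact hne (hj m l (Ne.symm hno.1) (Ne.symm hno.2) hml)
        have haml : a m = a l := (hker m l hm hl).1 hml
        -- the sets of entries
        have hoffb : offSet b m = offSet b l := by
          ext x
          rw [mem_offSet, mem_offSet]
          constructor
          · rintro ⟨t, ht, rfl⟩
            by_cases htl : t = l
            · exact ⟨m, hne, by rw [htl, hml]⟩
            · exact ⟨t, htl, rfl⟩
          · rintro ⟨t, ht, rfl⟩
            by_cases htm : t = m
            · exact ⟨l, Ne.symm hne, by rw [htm, hml]⟩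
            · exact ⟨t, htm, rfl⟩
        have hoffa : ∀ z, offSet (update a i z) m = insert z (offSet a i) ∧
            offSet (update a i z) l = insert z (offSet a i) := by
          intro z
          constructor
          · ext x
            rw [mem_offSet, Finset.mem_insert, mem_offSet]
            constructor
            · rintro ⟨t, ht, rfl⟩
              by_cases hti : t = i
              · left; rw [hti, update_self]
              · right; exact ⟨t, hti, by rw [update_of_ne hti]⟩
            · rintro (rfl | ⟨t, ht, rfl⟩)
              · exact ⟨i, Ne.symm hm, update_self _ _ _⟩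
              · by_cases htm : t = m
                · exact ⟨l, Ne.symm hne, by rw [update_of_ne hl, htm, haml]⟩
                · exact ⟨t, htm, by rw [update_of_ne ht]⟩
          · ext x
            rw [mem_offSet, Finset.mem_insert, mem_offSet]
            constructor
            · rintro ⟨t, ht, rfl⟩
              by_cases hti : t = i
              · left; rw [hti, update_self]
              · right; exact ⟨t, hti, by rw [update_of_ne hti]⟩
            · rintro (rfl | ⟨t, ht, rfl⟩)
              · exact ⟨i, Ne.symm hl, update_self _ _ _⟩
              · by_cases htl : t = l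
                · exact ⟨m, hne, by rw [update_of_ne hm, htl, haml]⟩
                · exact ⟨t, htl, by rw [update_of_ne ht]⟩
        -- the cardinality of the set of the other entries
        have hcard : (offSet a i).card + 1 = r := by
          -- `offSet b i` has `r - 1` elements
          have hb : (offSet b i).card + 1 = r := by
            have h4 : offSet b j = insert (b i) (offSet b i) := by
              have hjm := hmem j hj
              ext x
              rw [mem_offSet, Finset.mem_insert, mem_offSet]
              constructor
              · rintro ⟨t, ht, rfl⟩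
                by_cases hti : t = i
                · left; rw [hti]
                · right; exact ⟨t, hti, rfl⟩
              · rintro (rfl | ⟨t, ht, rfl⟩)
                · refine ⟨i, ?_, rfl⟩
                  rcases hjm with rfl | rfl
                  · exact Ne.symm hm
                  · exact Ne.symm hl
                · by_cases htj : t = j
                  · rcases hjm with rfl | rfl
                    · exact ⟨l, Ne.symm hne, by rw [htj, hml]⟩
                    · exact ⟨m, hne, by rw [htj, hml]⟩
                  · exact ⟨t, htj, rfl⟩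
            have h5 := hj.card
            rw [h4, Finset.card_insert_of_notMem] at h5
            · exact h5
            · rw [mem_offSet]
              rintro ⟨t, ht, h⟩
              exact h1 t ht h
          -- both sets have the same number of elements
          have hab : (offSet a i).card = (offSet b i).card := by
            have h6 : ∀ (c d : Fin (r + 1) → ℕ), (∀ j k, j ≠ i → k ≠ i → (c j = c k ↔ d j = d k)) →
                (offSet c i).card ≤ (offSet d i).card := by
              intro c d hcd
              have : ∀ x ∈ offSet c i, ∃ j, j ≠ i ∧ c j = x := fun x hx => mem_offSet.1 hx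
              choose! φ hφ hφ' using this
              refine Finset.card_le_card_of_injOn (fun x => d (φ x)) (fun x hx => ?_) ?_
              · exact mem_offSet.2 ⟨φ x, hφ x hx, rfl⟩
              · intro x hx y hy hxy
                rw [← hφ' x hx, ← hφ' y hy]
                exact (hcd _ _ (hφ x hx) (hφ y hy)).2 hxy
            exact le_antisymm (h6 a b fun j k hj hk => (hker j k hj hk).symm) (h6 b a hker)
          rw [hab]; exact hb
        obtain ⟨z, hz, hz'⟩ := exists_lb_insert hcode hr (offSet a i) hcard (labOff code b m)
        refine ⟨z, hkernel z hz, fun k hk => ?_⟩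
        rcases hmem k hk with rfl | rfl
        · have h7 : labOff code (update a i z) k = labOff code b k := by
            unfold labOff at hz' ⊢
            rw [(hoffa z).1, hz']
          rw [h7]
        · have h7 : labOff code (update a i z) k = labOff code b k := by
            unfold labOff at hz' ⊢
            rw [(hoffa z).2, hz', hoffb]
          rw [h7]
      · -- no labels
        obtain ⟨z, hz⟩ := Infinite.exists_notMem_finset (offSet a i)
        exact ⟨z, hkernel z hz, fun k hk => absurd ⟨k, hk⟩ h3⟩

end tuples

end Pool.Agent.Helper91.Cyl
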