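import Mathlib
import Pool.Agent.Helper91.Cyl.Tuples
import Pool.Agent.Helper91.Cyl.Phi

/-!
# The algebra of definable sets of tuples
-/

open Function

namespace Pool.Agent.Helper91.Cyl

section

variable {r : ℕ} {code : ℕ → Finset ℕ × (ℕ → Lbl r)}

/-! ### Exact types -/

variable (code) in
/-- Two tuples have the same type. -/
def Exact (a b : Fin (r + 1) → ℕ) : Prop :=
  (∀ j k, a j = a k ↔ b j = b k) ∧ ∀ i, InjOff a i → labOff code a i = labOff code b i

lemma Exact.refl (a : Fin (r + 1) → ℕ) : Exact code a a := ⟨fun _ _ => Iff.rfl, fun _ _ => rfl⟩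

lemma Exact.symm {a b : Fin (r + 1) → ℕ} (h : Exact code a b) : Exact code b a :=
  ⟨fun j k => (h.1 j k).symm, fun i hi => (h.2 i (hi.congr fun j k _ _ => (h.1 j k).symm)).symm⟩

lemma Exact.trans {a b c : Fin (r + 1) → ℕ} (h : Exact code a b) (h' : Exact code b c) :
    Exact code a c :=
  ⟨fun j k => (h.1 j k).trans (h'.1 j k), fun i hi => (h.2 i hi).trans
    (h'.2 i (hi.congr fun j k _ _ => h.1 j k))⟩

lemma Exact.eqv {a b : Fin (r + 1) → ℕ} (h : Exact code a b) (N : ℕ) : Eqv code N a b :=
  ⟨h.1, fun i hi => by rw [h.2 i hi]⟩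

variable (code) in
/-- All labels of the tuple are finite. -/
def FinLab (a : Fin (r + 1) → ℕ) : Prop := ∀ i, InjOff a i → (labOff code a i).2 ≠ none

lemma FinLab.exists_bound {a : Fin (r + 1) → ℕ} (h : FinLab code a) :
    ∃ N, ∀ b, Eqv code N a b → Exact code a b := by
  classical
  have h1 : ∀ i, ∃ N, InjOff a i → trunc N (labOff code a i) = labOff code a i ∧
      (trunc N (labOff code a i)).2 ≠ none := by
    intro i
    by_cases hi : InjOff a i
    · rcases h2 : (labOff code a i).2 with _ | ⟨k, b⟩
      · exact absurd h2 (h i hi)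
      · refine ⟨k + 1, fun _ => ?_⟩
        have h3 : trunc (k + 1) (labOff code a i) = labOff code a i := by
          refine Prod.ext rfl ?_
          simp only [trunc]
          rw [h2]
          simp [truncO]
        refine ⟨h3, ?_⟩
        rw [h3, h2]; simp
    · exact ⟨0, fun h => absurd h hi⟩
  choose f hf using h1
  refine ⟨Finset.univ.sup f, fun b hb => ⟨hb.1, fun i hi => ?_⟩⟩
  have hle : f i ≤ Finset.univ.sup f := Finset.le_sup (Finset.mem_univ i)
  have h2 := (Eqv.mono hle hb).2 i hi
  obtain ⟨h3, h4⟩ := hf i hi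
  rw [h3] at h2 h4
  refine Prod.ext ?_ ?_
  · have h8 := congrArg (fun l : Lbl r => l.1) h2
    exact h8
  · have h5 : (labOff code a i).2 = truncO (f i) (labOff code b i).2 :=
      congrArg (fun l : Lbl r => l.2) h2
    rw [h5]
    rcases h6 : (labOff code b i).2 with _ | ⟨k, c⟩
    · rfl
    · rw [h6] at h5
      simp only [truncO] at h5 ⊢
      split_ifs at h5 ⊢ with h7
      · rfl
      · exact absurd h5 h4

/-! ### Substitution -/

section subst

variable {a : Fin (r + 1) → ℕ} {i j : Fin (r + 1)}

/-- After a substitution only two coordinates can be removed to get distinct entries. -/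
lemma injOff_subst (hij : i ≠ j) {k : Fin (r + 1)} (h : InjOff (update a i (a j)) k) :
    k = i ∨ k = j := by
  by_contra hno
  push Not at hno
  exact hij (h i j (Ne.symm hno.1) (Ne.symm hno.2) (by
    rw [update_self, update_of_ne (Ne.symm hij)]))

lemma offSet_subst (hij : i ≠ j) : offSet (update a i (a j)) j = offSet a i := by
  ext x
  rw [mem_offSet, mem_offSet]
  constructor
  · rintro ⟨m, hm, rfl⟩
    by_cases hmi : m = i
    · exact ⟨j, Ne.symm hij, by rw [hmi, update_self]⟩
    · exact ⟨m, hmi, by rw [update_of_ne hmi]⟩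
  · rintro ⟨m, hm, rfl⟩
    by_cases hmj : m = j
    · exact ⟨i, hij, by rw [hmj, update_self]⟩
    · exact ⟨m, hmj, by rw [update_of_ne hm]⟩

lemma labOff_subst (hij : i ≠ j) {k : Fin (r + 1)} (hk : k = i ∨ k = j) :
    labOff code (update a i (a j)) k = labOff code a i := by
  unfold labOff
  rcases hk with rfl | rfl
  · rw [offSet_update]
  · rw [offSet_subst hij]

lemma injOff_subst_iff (hij : i ≠ j) : InjOff (update a i (a j)) j ↔ InjOff a i := by
  constructor
  · intro h m l hm hl hml
    by_cases hmj : m = j
    · by_cases hlj : l = j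
      · rw [hmj, hlj]
      · have := h i l hij hlj (by rw [update_self, update_of_ne hl, ← hml, hmj])
        exact absurd this.symm hl
    · by_cases hlj : l = j
      · have := h m i hmj hij (by rw [update_self, update_of_ne hm, hml, hlj])
        exact absurd this hm
      · exact h m l hmj hlj (by rw [update_of_ne hm, update_of_ne hl]; exact hml)
  · intro h m l hm hl hml
    by_cases hmi : m = i
    · by_cases hli : l = i
      · rw [hmi, hli]
      · rw [hmi, update_self, update_of_ne hli] at hml
        exact absurd (h j l (Ne.symm hij) hli hml).symm hl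
    · by_cases hli : l = i
      · rw [hli, update_self, update_of_ne hmi] at hml
        exact absurd (h m j hmi (Ne.symm hij) hml) hm
      · rw [update_of_ne hmi, update_of_ne hli] at hml
        exact h m l hmi hli hml

lemma injOff_update_iff {z : ℕ} : InjOff (update a i z) i ↔ InjOff a i := by
  constructor
  · intro h
    exact h.congr fun j k hj hk => by rw [update_of_ne hj, update_of_ne hk]
  · intro h
    exact h.update z

lemma injOff_of_subst (hij : i ≠ j) {k : Fin (r + 1)} (h : InjOff (update a i (a j)) k) :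
    InjOff a i := by
  rcases injOff_subst hij h with rfl | rfl
  · exact injOff_update_iff.1 h
  · exact (injOff_subst_iff hij).1 h

lemma FinLab.subst (h : FinLab code a) (hij : i ≠ j) : FinLab code (update a i (a j)) := by
  intro k hk
  rw [labOff_subst hij (injOff_subst hij hk)]
  exact h i (injOff_of_subst hij hk)

lemma Exact.subst {b : Fin (r + 1) → ℕ} (h : Exact code a b) (hij : i ≠ j) :
    Exact code (update a i (a j)) (update b i (b j)) := by
  refine ⟨fun m l => ?_, fun k hk => ?_⟩
  · by_cases hm : m = i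
    · by_cases hl : l = i
      · rw [hm, hl]; simp
      · rw [hm, update_self, update_of_ne hl, update_self, update_of_ne hl]
        exact h.1 j l
    · by_cases hl : l = i
      · rw [hl, update_self, update_of_ne hm, update_self, update_of_ne hm]
        exact h.1 m j
      · rw [update_of_ne hm, update_of_ne hl, update_of_ne hm, update_of_ne hl]
        exact h.1 m l
  · rw [labOff_subst hij (injOff_subst hij hk), labOff_subst hij (injOff_subst hij hk)]
    exact h.2 i (injOff_of_subst hij hk)

end subst

/-! ### Realising types -/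

section realise

variable (hcode : IsCode code) (hr : 2 ≤ r)
include hcode hr

/-- A tuple in which the entries apart from the one at `i` are distinct and have a given label. -/
lemma exists_tuple (l : Lbl r) :
    ∃ a : Fin (r + 1) → ℕ, a 0 = a 1 ∧ InjOff a 0 ∧ labOff code a 0 = l := by
  obtain ⟨z, hz, hz'⟩ := exists_lb_insert hcode hr (Finset.range (r - 1)) (by
    rw [Finset.card_range]; omega) l
  have hc : (insert z (Finset.range (r - 1))).card = r := by
    rw [Finset.card_insert_of_notMem hz, Finset.card_range]; omega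
  let e := (insert z (Finset.range (r - 1))).orderEmbOfFin hc
  let a : Fin (r + 1) → ℕ := Fin.cons (e ⟨0, by omega⟩) e
  have hsucc : ∀ j : Fin r, a j.succ = e j := fun j => Fin.cons_succ _ _ _
  have hinj : InjOff a 0 := by
    intro j k hj hk hjk
    obtain ⟨j', rfl⟩ := Fin.exists_succ_eq.2 hj
    obtain ⟨k', rfl⟩ := Fin.exists_succ_eq.2 hk
    rw [hsucc, hsucc] at hjk
    rw [e.injective hjk]
  refine ⟨a, ?_, hinj, ?_⟩
  · have h1 : (1 : Fin (r + 1)) = Fin.succ ⟨0, by omega⟩ := by
      ext
      simp [Nat.mod_eq_of_lt (by omega : 1 < r + 1)]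
    rw [h1, hsucc]
    exact Fin.cons_zero _ _
  · rw [← hz']
    unfold labOff
    congr 1
    ext x
    rw [mem_offSet]
    constructor
    · rintro ⟨j, hj, rfl⟩
      obtain ⟨j', rfl⟩ := Fin.exists_succ_eq.2 hj
      rw [hsucc]
      exact Finset.orderEmbOfFin_mem _ hc _
    · intro hx
      have h1 : x ∈ Set.range e := by
        rw [Finset.range_orderEmbOfFin]; exact hx
      obtain ⟨j, rfl⟩ := h1
      exact ⟨j.succ, Fin.succ_ne_zero j, hsucc j⟩

/-- Every good family of labels is realised. -/
lemma exists_realise (l : Fin (r + 1) → Lbl r) (hl : Good l) :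
    ∃ a : Fin (r + 1) → ℕ, Injective a ∧ ∀ k, labOff code a k = l k := by
  obtain ⟨a, -, ha, hla⟩ := exists_tuple hcode hr (l 0)
  obtain ⟨z, hz, hz'⟩ := exists_entry hcode hr a 0 ha l hl hla.symm
  refine ⟨update a 0 z, ?_, hz'⟩
  intro j k hjk
  by_cases hj : j = 0
  · by_cases hk : k = 0
    · rw [hj, hk]
    · rw [hj, update_self, update_of_ne hk] at hjk
      exact absurd (mem_offSet.2 ⟨k, hk, hjk.symm⟩) hz
  · by_cases hk : k = 0
    · rw [hk, update_self, update_of_ne hj] at hjk
      exact absurd (mem_offSet.2 ⟨j, hj, hjk⟩) hz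
    · rw [update_of_ne hj, update_of_ne hk] at hjk
      exact ha j k hj hk hjk

/-- Every tuple is equivalent to one with finite labels. -/
lemma exists_finLab (N : ℕ) (b : Fin (r + 1) → ℕ) :
    ∃ a, Eqv code N b a ∧ FinLab code a := by
  classical
  by_cases hb : Injective b
  · obtain ⟨l, h1, h2, h3⟩ := (good_labOff (code := code) hr hb).finite N
    obtain ⟨a, ha, hla⟩ := exists_realise hcode hr l h3
    refine ⟨a, ⟨fun j k => ?_, fun i _ => ?_⟩, fun i _ => ?_⟩
    · rw [hb.eq_iff, ha.eq_iff]
    · rw [hla, h1]
    · rw [hla]; exact h2 i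
  · by_cases h0 : ∃ j, InjOff b j
    · obtain ⟨j, hj⟩ := h0
      unfold Injective at hb
      push Not at hb
      obtain ⟨m, l, hml, hne⟩ := hb
      have hmem : ∀ j, InjOff b j → j = m ∨ j = l := by
        intro j hj
        by_contra hno
        push Not at hno
        exact hne (hj m l (Ne.symm hno.1) (Ne.symm hno.2) hml)
      -- another coordinate
      obtain ⟨i, hi⟩ : ∃ i : Fin (r + 1), i ∉ ({m, l} : Finset (Fin (r + 1))) := by
        by_contra hno
        push Not at hno
        have h1 : (Finset.univ : Finset (Fin (r + 1))) ⊆ {m, l} := fun i _ => hno i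
        have h2 := (Finset.card_le_card h1).trans Finset.card_le_two
        simp at h2
        omega
      simp only [Finset.mem_insert, Finset.mem_singleton, not_or] at hi
      obtain ⟨him, hil⟩ := hi
      have hbi : ∀ t, t ≠ i → b t ≠ b i := by
        intro t ht h
        rcases hmem j hj with rfl | rfl
        · by_cases htj : t = j
          · exact hil (hj l i (Ne.symm hne) him (by rw [← hml, ← htj, h])).symm
          · exact ht (hj t i htj him h)
        · by_cases htj : t = j
          · exact him (hj m i hne hil (by rw [hml, ← htj, h])).symm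
          · exact ht (hj t i htj hil h)
      have hoffm : offSet b m = offSet b l := by
        ext x
        rw [mem_offSet, mem_offSet]
        constructor
        · rintro ⟨t, ht, rfl⟩
          by_cases htl : t = l
          · exact ⟨m, hne, by rw [htl, hml]⟩
          · exact ⟨t, htl, rfl⟩
        · rintro ⟨t, ht, rfl⟩
          by_cases htm : t = m
          · exact ⟨l, Ne.symm hne, by rw [htm, hml]⟩
          · exact ⟨t, htm, rfl⟩
      have hins : ∀ z, offSet (update b i z) m = insert z (offSet b i) ∧
          offSet (update b i z) l = insert z (offSet b i) := by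
        intro z
        constructor
        · ext x
          rw [mem_offSet, Finset.mem_insert, mem_offSet]
          constructor
          · rintro ⟨t, ht, rfl⟩
            by_cases hti : t = i
            · left; rw [hti, update_self]
            · right; exact ⟨t, hti, by rw [update_of_ne hti]⟩
          · rintro (rfl | ⟨t, ht, rfl⟩)
            · exact ⟨i, him, update_self _ _ _⟩
            · by_cases htm : t = m
              · exact ⟨l, Ne.symm hne, by rw [update_of_ne (Ne.symm hil), htm, hml]⟩
              · exact ⟨t, htm, by rw [update_of_ne ht]⟩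
        · ext x
          rw [mem_offSet, Finset.mem_insert, mem_offSet]
          constructor
          · rintro ⟨t, ht, rfl⟩
            by_cases hti : t = i
            · left; rw [hti, update_self]
            · right; exact ⟨t, hti, by rw [update_of_ne hti]⟩
          · rintro (rfl | ⟨t, ht, rfl⟩)
            · exact ⟨i, hil, update_self _ _ _⟩
            · by_cases htl : t = l
              · exact ⟨m, hne, by rw [update_of_ne (Ne.symm him), htl, hml]⟩
              · exact ⟨t, htl, by rw [update_of_ne ht]⟩
      have hjm : offSet b j = offSet b m := by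
        rcases hmem j hj with rfl | rfl
        · rfl
        · exact hoffm.symm
      have hcard : (offSet b i).card + 1 = r := by
        have h1 := hj.card
        rw [hjm] at h1
        have h2 := (hins (b i)).1
        rw [update_eq_self] at h2
        rw [h2, Finset.card_insert_of_notMem] at h1
        · exact h1
        · rw [mem_offSet]
          rintro ⟨t, ht, h⟩
          exact hbi t ht h
      -- a finite label
      obtain ⟨l', h1, h2⟩ : ∃ l' : Lbl r, trunc N l' = trunc N (labOff code b m) ∧
          l'.2 ≠ none := by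
        rcases h3 : (labOff code b m).2 with _ | ⟨k, c⟩
        · refine ⟨((labOff code b m).1, some (N, false)), ?_, by simp⟩
          refine Prod.ext rfl ?_
          simp only [trunc]
          rw [h3]; simp [truncO]
        · exact ⟨labOff code b m, rfl, by rw [h3]; simp⟩
      obtain ⟨z, hz, hz'⟩ := exists_lb_insert hcode hr (offSet b i) hcard l'
      have hlab : ∀ k, k = m ∨ k = l → labOff code (update b i z) k = l' := by
        rintro k (rfl | rfl)
        · unfold labOff; rw [(hins z).1, hz']
        · unfold labOff; rw [(hins z).2, hz']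
      have hker : ∀ s t, b s = b t ↔ update b i z s = update b i z t := by
        intro s t
        have hz2 : ∀ m, m ≠ i → b m ≠ z := fun m hm h => hz (mem_offSet.2 ⟨m, hm, h⟩)
        by_cases hs : s = i
        · by_cases ht : t = i
          · rw [hs, ht]; simp
          · rw [hs, update_self, update_of_ne ht]
            exact ⟨fun h => absurd h.symm (hbi t ht), fun h => absurd h.symm (hz2 t ht)⟩
        · by_cases ht : t = i
          · rw [ht, update_self, update_of_ne hs]
            exact ⟨fun h => absurd h (hbi s hs), fun h => absurd h (hz2 s hs)⟩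
          · rw [update_of_ne hs, update_of_ne ht]
      refine ⟨update b i z, ⟨hker, fun k hk => ?_⟩, fun k hk => ?_⟩
      · rw [hlab k (hmem k hk), h1]
        rcases hmem k hk with rfl | rfl
        · rfl
        · unfold labOff; rw [hoffm]
      · have hk' : InjOff b k := hk.congr fun s t _ _ => (hker s t).symm
        rw [hlab k (hmem k hk')]
        exact h2
    · exact ⟨b, Eqv.refl _ _, fun i hi => absurd ⟨i, hi⟩ h0⟩

end realise

/-! ### The algebra -/

variable (code) in
/-- Saturated sets of tuples. -/
def Sat (N : ℕ) (X : Set (Fin (r + 1) → ℕ)) : Prop :=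
  ∀ a b, Eqv code N a b → (a ∈ X ↔ b ∈ X)

lemma Sat.mono {N N' : ℕ} (h : N ≤ N') {X : Set (Fin (r + 1) → ℕ)} (hX : Sat code N X) :
    Sat code N' X := fun a b hab => hX a b (hab.mono h)

variable (code) in
/-- The definable sets of tuples. -/
def defSets : BooleanSubalgebra (Set (Fin (r + 1) → ℕ)) where
  carrier := {X | ∃ N, Sat code N X}
  supClosed' := by
    rintro X ⟨N, hX⟩ Y ⟨M, hY⟩
    refine ⟨max N M, fun a b hab => ?_⟩
    exact or_congr ((hX.mono (le_max_left _ _)) a b hab) ((hY.mono (le_max_right _ _)) a b hab)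
  infClosed' := by
    rintro X ⟨N, hX⟩ Y ⟨M, hY⟩
    refine ⟨max N M, fun a b hab => ?_⟩
    exact and_congr ((hX.mono (le_max_left _ _)) a b hab) ((hY.mono (le_max_right _ _)) a b hab)
  compl_mem' := by
    rintro X ⟨N, hX⟩
    exact ⟨N, fun a b hab => not_congr (hX a b hab)⟩
  bot_mem' := ⟨0, fun a b _ => Iff.rfl⟩

lemma sat_cyl (hcode : IsCode code) (hr : 2 ≤ r) {N : ℕ} {X : Set (Fin (r + 1) → ℕ)}
    (hX : Sat code N X) (i : Fin (r + 1)) : Sat code N {a | ∃ u, update a i u ∈ X} := by
  have key : ∀ a b, Eqv code N a b → (∃ u, update a i u ∈ X) → ∃ u, update b i u ∈ X := by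
    rintro a b hab ⟨u, hu⟩
    obtain ⟨z, hz⟩ := exists_update hcode hr (hab.pre i u)
    exact ⟨z, (hX _ _ hz).1 hu⟩
  exact fun a b hab => ⟨key a b hab, key b a hab.symm⟩

lemma sat_diag (i j : Fin (r + 1)) : Sat code 0 {a | a i = a j} := fun _ _ hab => hab.1 i j

/-- The algebra of definable sets. -/
def algA (hcode : IsCode code) (hr : 2 ≤ r) : Alg (r + 1) where
  carrier := defSets code
  ba := inferInstance
  cyl i X := ⟨{a | ∃ u, update a i u ∈ X.1}, by
    obtain ⟨N, hN⟩ := X.2
    exact ⟨N, sat_cyl hcode hr hN i⟩⟩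
  diag i j := ⟨{a | a i = a j}, ⟨0, sat_diag i j⟩⟩

variable (hcode : IsCode code) (hr : 2 ≤ r)

/-- The underlying set of an element. -/
def toSet (X : algA hcode hr) : Set (Fin (r + 1) → ℕ) := X.1

lemma toSet_injective : Injective (toSet hcode hr) := Subtype.val_injective

lemma toSet_isHom : IsHom (algA hcode hr) (setAlg (r + 1) ℕ) (toSet hcode hr) where
  map_sup _ _ := rfl
  map_compl _ := rfl
  map_cyl _ _ := rfl
  map_diag _ _ := rfl

lemma algA_isCA : IsCA (algA hcode hr) :=
  (setAlg_isCA ℕ).of_injective (toSet_isHom hcode hr) (toSet_injective hcode hr)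

lemma algA_representable : Representable (algA hcode hr) := by
  refine ⟨Unit, fun _ => ℕ, fun _ => inferInstance, fun X _ => toSet hcode hr X, ?_, ?_⟩
  · exact
      { map_sup := fun _ _ => rfl
        map_compl := fun _ => rfl
        map_cyl := fun _ _ => rfl
        map_diag := fun _ _ => rfl }
  · intro X Y h
    exact toSet_injective hcode hr (congrFun h ())

lemma toSet_le {X Y : algA hcode hr} : X ≤ Y ↔ toSet hcode hr X ⊆ toSet hcode hr Y := Iff.rfl

lemma toSet_bot : toSet hcode hr ⊥ = ∅ := rfl

lemma toSet_inf (X Y : algA hcode hr) :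
    toSet hcode hr (X ⊓ Y) = toSet hcode hr X ∩ toSet hcode hr Y := rfl

lemma ne_bot_iff {X : algA hcode hr} : X ≠ ⊥ ↔ (toSet hcode hr X).Nonempty := by
  rw [Set.nonempty_iff_ne_empty, ← toSet_bot hcode hr]
  exact (toSet_injective hcode hr).ne_iff.symm

/-- The atom of a tuple with finite labels. -/
def atomOf {a : Fin (r + 1) → ℕ} (ha : FinLab code a) : algA hcode hr :=
  ⟨{b | Exact code a b}, by
    obtain ⟨N, hN⟩ := ha.exists_bound
    refine ⟨N, fun b c hbc => ?_⟩
    exact ⟨fun hb => hN c ((hb.eqv N).trans hbc), fun hc => hN b ((hc.eqv N).trans hbc.symm)⟩⟩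

lemma mem_atomOf {a b : Fin (r + 1) → ℕ} (ha : FinLab code a) :
    b ∈ toSet hcode hr (atomOf hcode hr ha) ↔ Exact code a b := Iff.rfl

lemma isAtom_atomOf {a : Fin (r + 1) → ℕ} (ha : FinLab code a) :
    IsAtom (atomOf hcode hr ha) := by
  refine ⟨(ne_bot_iff hcode hr).2 ⟨a, Exact.refl a⟩, fun Y hY => ?_⟩
  by_contra hne
  obtain ⟨y, hy⟩ := (ne_bot_iff hcode hr).1 hne
  obtain ⟨N, hN⟩ := Y.2
  refine hY.not_ge fun b hb => ?_
  have h1 : Exact code a y := hY.le hy
  exact (hN y b ((h1.symm.trans hb).eqv N)).1 hy

lemma exists_atomOf_le {X : algA hcode hr} (hX : X ≠ ⊥) :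
    ∃ (a : Fin (r + 1) → ℕ) (ha : FinLab code a), a ∈ toSet hcode hr X ∧
      atomOf hcode hr ha ≤ X := by
  obtain ⟨b, hb⟩ := (ne_bot_iff hcode hr).1 hX
  obtain ⟨N, hN⟩ := X.2
  obtain ⟨a, hba, ha⟩ := exists_finLab hcode hr N b
  have haX : a ∈ X.1 := (hN b a hba).1 hb
  exact ⟨a, ha, haX, fun c hc => (hN a c (hc.eqv N)).1 haX⟩

lemma algA_isAtomic : IsAtomic (algA hcode hr) := by
  refine ⟨fun X => ?_⟩
  by_cases hX : X = ⊥
  · exact Or.inl hX
  · obtain ⟨a, ha, -, hle⟩ := exists_atomOf_le hcode hr hX
    exact Or.inr ⟨_, isAtom_atomOf hcode hr ha, hle⟩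

lemma exists_eq_atomOf {m : algA hcode hr} (hm : IsAtom m) :
    ∃ (a : Fin (r + 1) → ℕ) (ha : FinLab code a), m = atomOf hcode hr ha := by
  obtain ⟨a, ha, -, hle⟩ := exists_atomOf_le hcode hr hm.1
  refine ⟨a, ha, ?_⟩
  rcases hm.le_iff.1 hle with h | h
  · exact absurd h (isAtom_atomOf hcode hr ha).1
  · exact h.symm

lemma dist_atomOf {a : Fin (r + 1) → ℕ} (ha : FinLab code a) :
    Dist (atomOf hcode hr ha) ↔ Injective a := by
  constructor
  · intro h i j hij
    by_contra hne
    have h1 := h i j hne
    have h2 : a ∈ toSet hcode hr (atomOf hcode hr ha ⊓ (algA hcode hr).diag i j) :=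
      ⟨Exact.refl a, hij⟩
    rw [h1] at h2
    exact h2
  · intro h i j hij
    by_contra hne
    obtain ⟨b, hb1, hb2⟩ := (ne_bot_iff hcode hr).1 hne
    have hb1' : Exact code a b := hb1
    have hb2' : b i = b j := hb2
    exact hij (h ((hb1'.1 i j).2 hb2'))

/-- Substitution in an atom. -/
lemma subst_atomOf {a : Fin (r + 1) → ℕ} (ha : FinLab code a) {i j : Fin (r + 1)} (hij : i ≠ j) :
    (algA hcode hr).diag i j ⊓ (algA hcode hr).cyl i (atomOf hcode hr ha) =
      atomOf hcode hr (ha.subst hij) := by
  refine toSet_injective hcode hr (Set.ext fun b => ?_)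
  constructor
  · rintro ⟨hb, u, hu⟩
    have hb' : b i = b j := hb
    have hu' : Exact code a (update b i u) := hu
    have h1 := hu'.subst hij
    rw [update_idem, update_of_ne (Ne.symm hij), ← hb', update_eq_self] at h1
    exact h1
  · intro hb
    have hb' : Exact code (update a i (a j)) b := hb
    refine ⟨?_, ?_⟩
    · show b i = b j
      refine (hb'.1 i j).1 ?_
      rw [update_self, update_of_ne (Ne.symm hij)]
    · obtain ⟨N, hN⟩ := ha.exists_bound
      have hpre : Pre code N i a b := by
        refine ⟨fun s t hs ht => ?_, fun hi => ?_⟩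
        · rw [← hb'.1 s t, update_of_ne hs, update_of_ne ht]
        · rw [← hb'.2 i (injOff_update_iff.2 hi)]
          unfold labOff
          rw [offSet_update]
      obtain ⟨u, hu⟩ := exists_update hcode hr hpre
      exact ⟨u, hN _ hu⟩

/-- The set of the tuples whose first two entries are equal and which have a given label. -/
def rlab (code : ℕ → Finset ℕ × (ℕ → Lbl r)) (l : Lbl r) : Set (Fin (r + 1) → ℕ) :=
  {b | b 0 = b 1 ∧ InjOff b 0 ∧ labOff code b 0 = l}

include hcode hr in
lemma rlab_nonempty (l : Lbl r) : (rlab code l).Nonempty := exists_tuple hcode hr l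

include hcode hr in
lemma rlab_injective : Injective (rlab code) := by
  intro l l' h
  obtain ⟨a, ha⟩ := rlab_nonempty hcode hr l
  have h1 : a ∈ rlab code l' := by rw [← h]; exact ha
  exact ha.2.2.symm.trans h1.2.2

lemma zero_ne_one (hr : 2 ≤ r) : (0 : Fin (r + 1)) ≠ 1 := by
  intro h
  have := congrArg Fin.val h
  simp [Nat.mod_eq_of_lt (by omega : 1 < r + 1)] at this

/-- The labels of an atom. -/
lemma lab_atomOf : ∀ (k : ℕ) (hk : k < r + 1) {a : Fin (r + 1) → ℕ} (ha : FinLab code a),
    InjOff a ⟨k, hk⟩ → toSet hcode hr (lab (algA hcode hr) k (atomOf hcode hr ha)) =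
      rlab code (labOff code a ⟨k, hk⟩)
  | 0, hk, a, ha, hinj => by
    have e0 : (⟨0, hk⟩ : Fin (r + 1)) = 0 := rfl
    rw [e0] at hinj ⊢
    ext b
    constructor
    · rintro ⟨hb, u, hu⟩
      have hb' : b 0 = b 1 := hb
      have hu' : Exact code a (update b 0 u) := hu
      have h1 : InjOff (update b 0 u) 0 := hinj.congr fun j k _ _ => hu'.1 j k
      refine ⟨hb', injOff_update_iff.1 h1, ?_⟩
      have h2 := hu'.2 0 hinj
      rw [h2]
      unfold labOff
      rw [offSet_update]
    · rintro ⟨h1, h2, h3⟩
      refine ⟨h1, ?_⟩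
      obtain ⟨N, hN⟩ := ha.exists_bound
      have hpre : Pre code N 0 a b := by
        refine ⟨fun s t hs ht => ?_, fun hi => by rw [h3]⟩
        exact ⟨fun h => by rw [hinj s t hs ht h], fun h => by rw [h2 s t hs ht h]⟩
      obtain ⟨u, hu⟩ := exists_update hcode hr hpre
      exact ⟨u, hN _ hu⟩
  | k + 1, hk, a, ha, hinj => by
    have e1 : idx r (k + 1) = ⟨k + 1, hk⟩ := idx_eq ⟨k + 1, hk⟩
    have e2 : idx r k = ⟨k, by omega⟩ := idx_eq ⟨k, by omega⟩
    have hne : (⟨k + 1, hk⟩ : Fin (r + 1)) ≠ ⟨k, by omega⟩ := by simp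
    simp only [lab]
    rw [e1, e2, subst_atomOf hcode hr ha hne,
      lab_atomOf k (by omega) (ha.subst hne) ((injOff_subst_iff hne).2 hinj),
      labOff_subst hne (Or.inr rfl)]

/-- The elements that give the colours. -/
def colors (c : Fin (r + 1)) : algA hcode hr :=
  ⟨{b | b 0 = b 1 ∧ InjOff b 0 ∧ (labOff code b 0).1 = c}, ⟨0, by
    have key : ∀ a b, Eqv code 0 a b → (a 0 = a 1 ∧ InjOff a 0 ∧ (labOff code a 0).1 = c) →
        (b 0 = b 1 ∧ InjOff b 0 ∧ (labOff code b 0).1 = c) := by
      rintro a b hab ⟨h1, h2, h3⟩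
      refine ⟨(hab.1 0 1).1 h1, h2.congr fun j k _ _ => hab.1 j k, ?_⟩
      rw [← h3]
      exact (congrArg (fun l : Lbl r => l.1) (hab.2 0 h2)).symm
    exact fun a b hab => ⟨key a b hab, key b a hab.symm⟩⟩⟩

lemma rlab_subset_colors {l : Lbl r} {c : Fin (r + 1)} :
    rlab code l ⊆ toSet hcode hr (colors hcode hr c) ↔ l.1 = c := by
  constructor
  · intro h
    obtain ⟨a, ha⟩ := rlab_nonempty hcode hr l
    have h1 := h ha
    have h2 : (labOff code a 0).1 = c := h1.2.2
    rw [← h2, ha.2.2]
  · rintro rfl a ha
    exact ⟨ha.1, ha.2.1, by rw [ha.2.2]⟩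

/-- Description of the links. -/
lemma adj_iff {x y : algA hcode hr} {c : Fin (r + 1)} (hx : x ≤ colors hcode hr c)
    (hy : y ≤ colors hcode hr c) : Adj x y ↔ ∃ l l' : Lbl r, toSet hcode hr x = rlab code l ∧
      toSet hcode hr y = rlab code l' ∧ l.1 = c ∧ l'.1 = c ∧ l'.2 = partner l.2 ∧ l.2 ≠ none := by
  have e0 : (0 : Fin (r + 1)) = ⟨0, by omega⟩ := rfl
  have e1 : (1 : Fin (r + 1)) = ⟨1, by omega⟩ := by
    ext; simp [Nat.mod_eq_of_lt (by omega : 1 < r + 1)]
  constructor
  · rintro ⟨m, hm, hd, h0, h1, h2⟩
    obtain ⟨a, ha, rfl⟩ := exists_eq_atomOf hcode hr hm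
    have hinj := (dist_atomOf hcode hr ha).1 hd
    have hoff : ∀ i, InjOff a i := fun i j k _ _ h => hinj h
    have hx' : toSet hcode hr x = rlab code (labOff code a 0) := by
      rw [← h0, lab_atomOf hcode hr 0 (by omega) ha (hoff _)]
      rfl
    have hy' : toSet hcode hr y = rlab code (labOff code a 1) := by
      rw [← h1, lab_atomOf hcode hr 1 (by omega) ha (hoff _), e1]
    have hrest : ∀ i : Fin (r + 1), 2 ≤ i.1 → labOff code a i = labOff code a 0 := by
      intro i hi
      refine rlab_injective hcode hr ?_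
      rw [← hx', ← h2 i hi, lab_atomOf hcode hr i.1 i.2 ha (hoff _)]
    have hc0 : (labOff code a 0).1 = c := by
      rw [← rlab_subset_colors hcode hr, ← hx']; exact hx
    have hc1 : (labOff code a 1).1 = c := by
      rw [← rlab_subset_colors hcode hr, ← hy']; exact hy
    have hcases : ∀ i : Fin (r + 1), i = 1 ∨ labOff code a i = labOff code a 0 := by
      intro i
      rcases Nat.lt_or_ge i.1 2 with hi | hi
      · rcases Nat.lt_or_ge i.1 1 with hi' | hi'
        · right
          have : i = 0 := Fin.ext (show i.1 = 0 by omega)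
          rw [this]
        · left
          rw [e1]; exact Fin.ext (show i.1 = 1 by omega)
      · exact Or.inr (hrest i hi)
    have hfin : ∀ i, (labOff code a i).2 ≠ none := fun i => ha i (hoff i)
    have hself : ∀ o : Option (ℕ × Bool), o ≠ none → o ≠ partner o := by
      intro o ho
      rcases o with _ | ⟨k, b⟩
      · exact absurd rfl ho
      · simp [partner]
    refine ⟨_, _, hx', hy', hc0, hc1, ?_, hfin 0⟩
    rcases good_labOff (code := code) hr hinj with ⟨i, j, hij⟩ | ⟨i, j, hij, hp⟩
    · exfalso
      have hcol : ∀ i, (labOff code a i).1 = c := by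
        intro i
        rcases hcases i with rfl | h
        · exact hc1
        · rw [h]; exact hc0
      exact hij ((hcol i).trans (hcol j).symm)
    · rcases hcases i with rfl | hi
      · rcases hcases j with rfl | hj
        · exact absurd rfl hij
        · rw [hj] at hp
          rw [hp, partner_partner]
      · rcases hcases j with rfl | hj
        · rw [hi] at hp; exact hp
        · rw [hi, hj] at hp
          exact absurd hp (hself _ (hfin 0))
  · rintro ⟨l, l', hx', hy', hl, hl', hp, hfin⟩
    have hfin' : l'.2 ≠ none := by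
      rw [hp]
      rcases h : l.2 with _ | ⟨k, b⟩
      · exact absurd h hfin
      · simp [partner]
    obtain ⟨a, hinj, hla⟩ := exists_realise hcode hr (fun i => if i = 1 then l' else l)
      (Or.inr ⟨0, 1, zero_ne_one hr, by simp [zero_ne_one hr, hp]⟩)
    have hoff : ∀ i, InjOff a i := fun i j k _ _ h => hinj h
    have ha : FinLab code a := by
      intro i _
      rw [hla]
      split_ifs
      · exact hfin'
      · exact hfin
    refine ⟨atomOf hcode hr ha, isAtom_atomOf hcode hr ha, (dist_atomOf hcode hr ha).2 hinj,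
      ?_, ?_, ?_⟩
    · refine toSet_injective hcode hr ?_
      rw [lab_atomOf hcode hr 0 (by omega) ha (hoff _), hx', hla, if_neg]
      exact zero_ne_one hr
    · refine toSet_injective hcode hr ?_
      rw [lab_atomOf hcode hr 1 (by omega) ha (hoff _), hy', hla, if_pos e1.symm]
    · intro i hi
      refine toSet_injective hcode hr ?_
      rw [lab_atomOf hcode hr i.1 i.2 ha (hoff _), hx', hla, if_neg]
      intro h
      rw [e1] at h
      have := congrArg Fin.val h
      simp at this
      omega

/-- The algebra has the property. -/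
theorem algA_phi : Phi (algA hcode hr) := by
  refine ⟨?_, colors hcode hr, ?_⟩
  · -- simplicity
    intro X hX
    obtain ⟨b, hb⟩ := (ne_bot_iff hcode hr).1 hX
    have key : ∀ (l : List (Fin (r + 1))) (a : Fin (r + 1) → ℕ), (∀ i, i ∉ l → a i = b i) →
        a ∈ toSet hcode hr (l.foldr (fun i y => (algA hcode hr).cyl i y) X) := by
      intro l
      induction l with
      | nil =>
        intro a ha
        have : a = b := funext fun i => ha i (by simp)
        rw [this]; exact hb
      | cons i l ih =>
        intro a ha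
        refine ⟨b i, ih _ fun j hj => ?_⟩
        by_cases hji : j = i
        · rw [hji, update_self]
        · rw [update_of_ne hji]
          exact ha j (by simp [hji, hj])
    refine toSet_injective hcode hr (Set.ext fun a => ?_)
    refine ⟨fun _ => trivial, fun _ => key _ a fun i hi => ?_⟩
    exact absurd (List.mem_finRange i) hi
  · -- the atoms with distinct entries
    have hlab : ∀ m : algA hcode hr, IsAtom m → Dist m → ∃ a : Fin (r + 1) → ℕ,
        Injective a ∧ FinLab code a ∧ ∀ i : Fin (r + 1),
          toSet hcode hr (lab (algA hcode hr) i.1 m) = rlab code (labOff code a i) := by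
      intro m hm hd
      obtain ⟨a, ha, rfl⟩ := exists_eq_atomOf hcode hr hm
      have hinj := (dist_atomOf hcode hr ha).1 hd
      exact ⟨a, hinj, ha, fun i => lab_atomOf hcode hr i.1 i.2 ha fun j k _ _ h => hinj h⟩
    refine ⟨?_, ?_, ?_, ?_, ?_⟩
    · intro m hm hd i
      obtain ⟨a, -, -, h⟩ := hlab m hm hd
      refine ⟨(labOff code a i).1, ?_⟩
      rw [toSet_le, h i, rlab_subset_colors]
    · intro c x y z hx hy hz hxy hxz
      obtain ⟨l, l', h1, h2, h3, h4, h5, -⟩ := (adj_iff hcode hr hx hy).1 hxy
      obtain ⟨k, k', g1, g2, g3, g4, g5, -⟩ := (adj_iff hcode hr hx hz).1 hxz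
      have hlk : l = k := rlab_injective hcode hr (h1.symm.trans g1)
      have hlk' : l' = k' := Prod.ext (h4.trans g4.symm) (by rw [h5, g5, hlk])
      refine toSet_injective hcode hr ?_
      rw [h2, g2, hlk']
    · intro c x y hx hy hxy
      obtain ⟨l, l', h1, h2, h3, h4, h5, h6⟩ := (adj_iff hcode hr hx hy).1 hxy
      refine (adj_iff hcode hr hy hx).2 ⟨l', l, h2, h1, h4, h3, by rw [h5, partner_partner], ?_⟩
      rw [h5]
      rcases h : l.2 with _ | ⟨k, b⟩
      · exact absurd h h6
      · simp [partner]
    · intro c x hx hxx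
      obtain ⟨l, l', h1, h2, h3, h4, h5, h6⟩ := (adj_iff hcode hr hx hx).1 hxx
      have : l = l' := rlab_injective hcode hr (h1.symm.trans h2)
      rw [← this] at h5
      rcases h : l.2 with _ | ⟨k, b⟩
      · exact h6 h
      · rw [h] at h5; simp [partner] at h5
    · intro m hm hd c hc
      obtain ⟨a, hinj, ha, h⟩ := hlab m hm hd
      have hcol : ∀ i, (labOff code a i).1 = c := by
        intro i
        have := hc i
        rwa [toSet_le, h i, rlab_subset_colors] at this
      rcases good_labOff (code := code) hr hinj with ⟨i, j, hij⟩ | ⟨i, j, hij, hp⟩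
      · exact absurd ((hcol i).trans (hcol j).symm) hij
      · exact ⟨i, j, (adj_iff hcode hr (hc i) (hc j)).2 ⟨_, _, h i, h j, hcol i, hcol j, hp,
          ha i fun j k _ _ h => hinj h⟩⟩

/-- The algebra is infinite. -/
theorem algA_infinite (k : ℕ) : ∃ x : Fin k → algA hcode hr, ∀ a b, x a = x b → a = b := by
  have hmem : ∀ j : ℕ, ∃ N, Sat code N (rlab code (0, some (j, false))) := by
    intro j
    refine ⟨j + 1, ?_⟩
    have key : ∀ a b, Eqv code (j + 1) a b → a ∈ rlab code (0, some (j, false)) →
        b ∈ rlab code (0, some (j, false)) := by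
      rintro a b hab ⟨h1, h2, h3⟩
      refine ⟨(hab.1 0 1).1 h1, h2.congr fun s t _ _ => hab.1 s t, ?_⟩
      have h4 := hab.2 0 h2
      rw [h3] at h4
      have h5 : (0 : Fin (r + 1)) = (labOff code b 0).1 := congrArg (fun l : Lbl r => l.1) h4
      have h6 : truncO (j + 1) (some (j, false)) = truncO (j + 1) (labOff code b 0).2 :=
        congrArg (fun l : Lbl r => l.2) h4
      refine Prod.ext h5.symm ?_
      rcases h7 : (labOff code b 0).2 with _ | ⟨m, c⟩
      · rw [h7] at h6; simp [truncO] at h6
      · rw [h7] at h6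
        simp only [truncO] at h6
        rw [if_pos (Nat.lt_succ_self j)] at h6
        split_ifs at h6 with h8
        exact h6.symm
    exact fun a b hab => ⟨key a b hab, key b a hab.symm⟩
  refine ⟨fun j => (⟨rlab code (0, some (j.1, false)), hmem j.1⟩ : defSets code), fun a b h => ?_⟩
  have h1 : rlab code (0, some (a.1, false)) = rlab code (0, some (b.1, false)) :=
    congrArg Subtype.val h
  have h2 := rlab_injective hcode hr h1
  simp only [Prod.mk.injEq, Option.some.injEq, and_true, true_and] at h2
  exact Fin.ext h2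

end

end Pool.Agent.Helper91.Cyl
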