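import Mathlib
import Pool.Agent.Helper91.Cyl.Phi
import Pool.Agent.Helper91.Cyl.Ramsey

/-!
# Strongly representable algebras with the property `Phi` are small
-/

open Function Filter

namespace Pool.Agent.Helper91.Cyl

variable {r : ℕ}

/-- The tuple with its first entry doubled. -/
def dbl {U : Type} (hr : 0 < r) (v : Fin r → U) : Fin (r + 1) → U := Fin.cons (v ⟨0, hr⟩) v

section coloring

variable {A : Alg (r + 1)} {p : Fin (r + 1) → A}

open Classical in
/-- The colour of a label. -/
noncomputable def colorOf (p : Fin (r + 1) → A) (x : A) : Fin (r + 1) :=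
  if h : ∃ c, x ≤ p c then h.choose else 0

lemma le_colorOf {x : A} (h : ∃ c, x ≤ p c) : x ≤ p (colorOf p x) := by
  unfold colorOf
  rw [dif_pos h]
  exact h.choose_spec

open Classical in
/-- The parity of a label. -/
noncomputable def parity (p : Fin (r + 1) → A) (c : Fin (r + 1)) (x : A) : Bool :=
  decide (∃ y, y ≤ p c ∧ Adj x y ∧ WellOrderingRel x y)

lemma parity_ne (h : PhiAt A p) {c : Fin (r + 1)} {x y : A} (hx : x ≤ p c) (hy : y ≤ p c)
    (hxy : Adj x y) : parity p c x ≠ parity p c y := by
  have key : ∀ x y : A, x ≤ p c → y ≤ p c → Adj x y → WellOrderingRel x y →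
      parity p c x = true ∧ parity p c y = false := by
    intro x y hx hy hxy hlt
    simp only [parity, decide_eq_true_eq, decide_eq_false_iff_not]
    refine ⟨⟨y, hy, hxy, hlt⟩, ?_⟩
    rintro ⟨z, hz, hyz, hlt'⟩
    have hyx := h.symm c x y hx hy hxy
    have : z = x := h.unique c y z x hy hz hx hyz hyx
    subst this
    exact _root_.asymm hlt hlt'
  have hne : x ≠ y := by
    rintro rfl
    exact h.irrefl c x hx hxy
  rcases trichotomous_of WellOrderingRel x y with hlt | heq | hlt
  · obtain ⟨h1, h2⟩ := key x y hx hy hxy hlt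
    rw [h1, h2]; simp
  · exact absurd heq hne
  · obtain ⟨h1, h2⟩ := key y x hy hx (h.symm c x y hx hy hxy) hlt
    rw [h1, h2]; simp

/-- The class of a label. -/
noncomputable def cls (p : Fin (r + 1) → A) (x : A) : Fin (r + 1) × Bool :=
  (colorOf p x, parity p (colorOf p x) x)

end coloring

/-- Cylindrification of all coordinates in the complex algebra. -/
lemma cmAt_foldr {A : Alg (r + 1)} (hA : IsCA A) [IsAtomic A] (b : {a : A // IsAtom a})
    (X : Set {a : A // IsAtom a}) (hb : b ∈ X) : ∀ (l : List (Fin (r + 1)))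
    (a : {a : A // IsAtom a}), a.1 ≤ l.foldr (fun i y => A.cyl i y) b.1 →
      a ∈ (show Set {a : A // IsAtom a} from l.foldr (fun i y => (cmAt A).cyl i y) X)
  | [], a, h => by
    have h1 : a.1 = b.1 := by
      rcases b.2.le_iff.1 h with h | h
      · exact absurd h a.2.1
      · exact h
    rw [Subtype.ext h1]; exact hb
  | i :: l, a, h => by
    rw [List.foldr_cons] at h
    obtain ⟨b', hb', hle, hab⟩ := hA.exists_atom_le_cyl i a.2 h
    have h1 := cmAt_foldr hA b X hb l ⟨b', hb'⟩ hle
    exact ⟨⟨b', hb'⟩, h1, hab⟩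

lemma IsHom.foldr_cyl {A B : Alg (r + 1)} {h : A → B} (hh : IsHom A B h) (l : List (Fin (r + 1)))
    (x : A) : h (l.foldr (fun i y => A.cyl i y) x) = l.foldr (fun i y => B.cyl i y) (h x) := by
  induction l with
  | nil => rfl
  | cons i l ih => rw [List.foldr_cons, hh.map_cyl, ih, List.foldr_cons]

lemma foldr_cyl_bot {A : Alg (r + 1)} (hA : IsCA A) (l : List (Fin (r + 1))) :
    l.foldr (fun i y => A.cyl i y) ⊥ = ⊥ := by
  induction l with
  | nil => rfl
  | cons i l ih => rw [List.foldr_cons, ih, hA.cyl_bot]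

section main

variable {A : Alg (r + 1)} (hA : IsCA A) [IsAtomic A] {U : Type}
  {h : cmAt A → setAlg (r + 1) U} (hh : IsHom _ _ h)

/-- The atoms. -/
abbrev At (A : Alg (r + 1)) : Type := {a : A // IsAtom a}

/-- The image of a set of atoms. -/
def img (h : cmAt A → setAlg (r + 1) U) (X : Set (At A)) : Set (Fin (r + 1) → U) := h X

include hh

omit hA [IsAtomic A] in
lemma img_inter (X Y : Set (At A)) : img h (X ∩ Y) = img h X ∩ img h Y := hh.map_inf X Y

omit hA [IsAtomic A] in
lemma img_compl (X : Set (At A)) : img h Xᶜ = (img h X)ᶜ := hh.map_compl X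

omit hA [IsAtomic A] in
lemma img_univ : img h Set.univ = Set.univ := hh.map_top

omit hA [IsAtomic A] in
lemma img_mono {X Y : Set (At A)} (hXY : X ⊆ Y) : img h X ⊆ img h Y :=
  hh.mono (x := X) (y := Y) hXY

/-- The ultrafilter on the atoms given by a tuple. -/
def ultra (a : Fin (r + 1) → U) : Ultrafilter (At A) :=
  Ultrafilter.ofComplNotMemIff
    { sets := {X | a ∈ img h X}
      univ_sets := by
        show a ∈ img h Set.univ
        rw [img_univ hh]; trivial
      sets_of_superset := fun {X Y} hX hXY => img_mono hh hXY hX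
      inter_sets := fun {X Y} hX hY => by
        show a ∈ img h (X ∩ Y)
        rw [img_inter hh]; exact ⟨hX, hY⟩ }
    (by
      intro X
      show ¬ a ∈ img h Xᶜ ↔ a ∈ img h X
      rw [img_compl hh]
      exact not_not)

omit hA [IsAtomic A] in
lemma mem_ultra (a : Fin (r + 1) → U) (X : Set (At A)) : X ∈ ultra hh a ↔ a ∈ img h X := Iff.rfl

omit hA [IsAtomic A] in
lemma img_cyl (i : Fin (r + 1)) (X : Set (At A)) :
    img h {a | ∃ b ∈ X, a.1 ≤ A.cyl i b.1} = {a | ∃ u : U, update a i u ∈ img h X} :=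
  hh.map_cyl i X

omit hA [IsAtomic A] in
lemma img_diag (i j : Fin (r + 1)) :
    img h {a | a.1 ≤ A.diag i j} = {a | a i = a j} := hh.map_diag i j

omit [IsAtomic A] in
/-- The value of a class function at a tuple. -/
lemma exists_val {κ : Type} [Finite κ] (χ : At A → κ) (a : Fin (r + 1) → U) :
    ∃ k, ∀ᶠ m in (ultra hh a : Filter (At A)), χ m = k := by
  have h1 : ∀ᶠ m in (ultra hh a : Filter (At A)), ∃ k, χ m = k :=
    Eventually.of_forall fun m => ⟨_, rfl⟩
  exact Ultrafilter.eventually_exists_iff.1 h1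

omit hA [IsAtomic A] in
lemma val_unique {κ : Type} (χ : At A → κ) (a : Fin (r + 1) → U) {k k' : κ}
    (h1 : ∀ᶠ m in (ultra hh a : Filter (At A)), χ m = k)
    (h2 : ∀ᶠ m in (ultra hh a : Filter (At A)), χ m = k') : k = k' := by
  obtain ⟨m, h3, h4⟩ := (h1.and h2).exists
  exact h3.symm.trans h4

include hA in
omit [IsAtomic A] in
/-- Changing the removed coordinate. -/
lemma val_update {κ : Type} (f : A → κ) (i : Fin (r + 1)) (a : Fin (r + 1) → U) (z : U) {k : κ}
    (h1 : ∀ᶠ m in (ultra hh a : Filter (At A)), f (lab A i.1 m.1) = k) :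
    ∀ᶠ m in (ultra hh (update a i z) : Filter (At A)), f (lab A i.1 m.1) = k := by
  have hcl : {m : At A | ∃ m' ∈ {m : At A | f (lab A i.1 m.1) = k}, m.1 ≤ A.cyl i m'.1} =
      {m : At A | f (lab A i.1 m.1) = k} := by
    ext m
    constructor
    · rintro ⟨m', hm', hle⟩
      have hc := hA.atom_cyl_eq i m.2 m'.2 hle
      have hl : lab A i.1 m.1 = lab A i.1 m'.1 := by
        obtain ⟨i, hi⟩ := i
        cases i with
        | zero =>
          simp only [lab]
          have : idx r 0 = ⟨0, hi⟩ := idx_eq ⟨0, hi⟩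
          rw [this, hc]
        | succ i =>
          simp only [lab]
          have : idx r (i + 1) = ⟨i + 1, hi⟩ := idx_eq ⟨i + 1, hi⟩
          rw [this, hc]
      show f (lab A i.1 m.1) = k
      rw [hl]; exact hm'
    · intro hm
      exact ⟨m, hm, hA.le_cyl i _⟩
  have h2 : {m : At A | f (lab A i.1 m.1) = k} ∈ ultra hh a := h1
  rw [mem_ultra] at h2
  show {m : At A | f (lab A i.1 m.1) = k} ∈ ultra hh (update a i z)
  rw [mem_ultra, ← hcl, img_cyl hh]
  refine ⟨a i, ?_⟩
  rw [update_idem, update_eq_self]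
  exact h2

include hA in
omit [IsAtomic A] in
/-- Passing to the next coordinate. -/
lemma val_succ {κ : Type} (f : A → κ) (i : ℕ) (hi : i + 1 < r + 1) (a : Fin (r + 1) → U)
    (ha : a ⟨i + 1, hi⟩ = a ⟨i, by omega⟩) {k : κ} :
    (∀ᶠ m in (ultra hh a : Filter (At A)), f (lab A (i + 1) m.1) = k) ↔
    (∀ᶠ m in (ultra hh a : Filter (At A)), f (lab A i m.1) = k) := by
  have h1 : {m : At A | m.1 ≤ A.diag ⟨i + 1, hi⟩ ⟨i, by omega⟩} ∈ ultra hh a := by
    rw [mem_ultra, img_diag hh]
    exact ha
  have h2 : ∀ᶠ m in (ultra hh a : Filter (At A)), lab A (i + 1) m.1 = lab A i m.1 := by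
    filter_upwards [h1] with m hm
    simp only [lab]
    have e1 : idx r (i + 1) = ⟨i + 1, hi⟩ := idx_eq ⟨i + 1, hi⟩
    have e2 : idx r i = ⟨i, by omega⟩ := idx_eq ⟨i, by omega⟩
    rw [e1, e2, hA.diag_cyl _ _ (by simp [Fin.ext_iff]) hm]
  exact eventually_congr (h2.mono fun m hm => by rw [hm])

include hA in
omit [IsAtomic A] in
/-- The class of the label at coordinate `i` is the class of the doubled tuple. -/
lemma val_dbl {κ : Type} (f : A → κ) (hr : 0 < r) {k : κ} : ∀ (i : ℕ) (hi : i < r + 1)
    (a : Fin (r + 1) → U),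
    (∀ᶠ m in (ultra hh a : Filter (At A)), f (lab A i m.1) = k) →
    (∀ᶠ m in (ultra hh (dbl hr (fun j => a ((⟨i, hi⟩ : Fin (r + 1)).succAbove j))) :
      Filter (At A)), f (lab A 0 m.1) = k)
  | 0, hi, a, h1 => by
    have h2 := val_update hA hh f ⟨0, hi⟩ a (a ⟨1, by omega⟩) h1
    have h3 : update a ⟨0, hi⟩ (a ⟨1, by omega⟩) =
        dbl hr (fun j => a ((⟨0, hi⟩ : Fin (r + 1)).succAbove j)) := by
      funext j
      refine Fin.cases ?_ (fun j => ?_) j
      · have : (0 : Fin (r + 1)) = ⟨0, hi⟩ := rfl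
        rw [this, update_self]
        simp only [dbl]
        show a ⟨1, _⟩ = Fin.cons (α := fun _ => U) _ _ (0 : Fin (r + 1))
        rw [Fin.cons_zero]
        rfl
      · rw [update_of_ne (by
          intro h
          exact absurd (congrArg Fin.val h) (by simp))]
        simp only [dbl, Fin.cons_succ]
        rfl
    rw [h3] at h2
    exact h2
  | i + 1, hi, a, h1 => by
    have h2 := val_update hA hh f ⟨i + 1, hi⟩ a (a ⟨i, by omega⟩) h1
    rw [val_succ hA hh f i hi _ (by
      rw [update_self, update_of_ne (by simp [Fin.ext_iff])])] at h2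
    have h3 := val_dbl f hr i (by omega) _ h2
    have h4 : (fun j => update a ⟨i + 1, hi⟩ (a ⟨i, by omega⟩)
        ((⟨i, by omega⟩ : Fin (r + 1)).succAbove j)) =
        fun j => a ((⟨i + 1, hi⟩ : Fin (r + 1)).succAbove j) := by
      funext j
      rcases lt_trichotomy j.1 i with hj | hj | hj
      · have e1 : (⟨i, by omega⟩ : Fin (r + 1)).succAbove j = ⟨j.1, by omega⟩ := by
          rw [Fin.succAbove_of_castSucc_lt _ _ (by simpa [Fin.lt_def] using hj)]; rfl
        have e2 : (⟨i + 1, hi⟩ : Fin (r + 1)).succAbove j = ⟨j.1, by omega⟩ := by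
          rw [Fin.succAbove_of_castSucc_lt _ _ (by simp only [Fin.lt_def, Fin.val_castSucc]; omega)]
          rfl
        rw [e1, e2, update_of_ne (by simp only [ne_eq, Fin.mk.injEq]; omega)]
      · have e1 : (⟨i, by omega⟩ : Fin (r + 1)).succAbove j = ⟨i + 1, hi⟩ := by
          rw [Fin.succAbove_of_le_castSucc _ _ (by simp only [Fin.le_def, Fin.val_castSucc]; omega)]
          ext; simp [hj]
        have e2 : (⟨i + 1, hi⟩ : Fin (r + 1)).succAbove j = ⟨i, by omega⟩ := by
          rw [Fin.succAbove_of_castSucc_lt _ _ (by simp only [Fin.lt_def, Fin.val_castSucc]; omega)]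
          ext; simp [hj]
        rw [e1, e2, update_self]
      · have e1 : (⟨i, by omega⟩ : Fin (r + 1)).succAbove j = ⟨j.1 + 1, by omega⟩ := by
          rw [Fin.succAbove_of_le_castSucc _ _ (by simp only [Fin.le_def, Fin.val_castSucc]; omega)]
          rfl
        have e2 : (⟨i + 1, hi⟩ : Fin (r + 1)).succAbove j = ⟨j.1 + 1, by omega⟩ := by
          rw [Fin.succAbove_of_le_castSucc _ _ (by simp only [Fin.le_def, Fin.val_castSucc]; omega)]
          rfl
        rw [e1, e2, update_of_ne (by simp only [ne_eq, Fin.mk.injEq]; omega)]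
    rw [h4] at h3
    exact h3

end main

/-- Algebras with the property `Phi` that are strongly representable have boundedly many
elements. -/
theorem card_bound (r : ℕ) (hr : 0 < r) : ∃ N : ℕ, ∀ A : Alg (r + 1), A ∈ SRCA (r + 1) → Phi A →
    ¬ ∃ x : Fin N → A, ∀ a b, x a = x b → a = b := by
  classical
  obtain ⟨K, hK⟩ := ramsey_finite (Fin (r + 1) × Bool) r (r + 1)
  refine ⟨Fintype.card (Set (Fin (r + 1) → Fin K)) + 2, ?_⟩
  rintro A ⟨hA, hat, W, U, hU, g, hg, hginj⟩ ⟨hsimple, p, hp⟩ ⟨x, hx⟩
  -- the algebra is non-trivial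
  have hne : (⊥ : A) ≠ ⊤ := by
    intro h
    have hall : ∀ y : A, y = ⊥ := fun y => le_bot_iff.1 (le_top.trans h.ge)
    have := hx ⟨0, by omega⟩ ⟨1, by omega⟩ ((hall _).trans (hall _).symm)
    simp at this
  -- a component
  obtain ⟨w, hw⟩ : ∃ w, g (⊥ : cmAt A) w ≠ g (⊤ : cmAt A) w := by
    by_contra hno
    push Not at hno
    have h1 : (⊥ : cmAt A) = ⊤ := hginj (funext hno)
    obtain ⟨a, ha, -⟩ := (IsAtomic.eq_bot_or_exists_atom_le (⊤ : A)).resolve_left hne.symm
    have h2 : (⟨a, ha⟩ : At A) ∈ (∅ : Set (At A)) := by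
      have : (∅ : Set (At A)) = Set.univ := h1
      rw [this]; trivial
    exact h2
  set h : cmAt A → setAlg (r + 1) (U w) := fun X => g X w with hdef
  have hh : IsHom (cmAt A) (setAlg (r + 1) (U w)) h := hg.comp (proj_isHom _ w)
  have hbt : (⊥ : setAlg (r + 1) (U w)) ≠ ⊤ := by
    have h1 := hh.map_bot
    have h2 := hh.map_top
    rw [← h1, ← h2]
    exact hw
  -- no non-empty set is sent to the empty set
  have hker : ∀ X : Set (At A), X.Nonempty → img h X ≠ ∅ := by
    rintro X ⟨b, hb⟩ h0
    have h1 : (show Set (At A) from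
        (List.finRange (r + 1)).foldr (fun i y => (cmAt A).cyl i y) X) = Set.univ := by
      refine Set.eq_univ_of_forall fun a => cmAt_foldr hA b X hb _ a ?_
      have := hsimple b.1 b.2.1
      unfold cylAll at this
      rw [this]; exact le_top
    have h2 := hh.foldr_cyl (List.finRange (r + 1)) X
    have h3 : h X = ⊥ := h0
    rw [h3, foldr_cyl_bot (setAlg_isCA _)] at h2
    have h4 : h ((List.finRange (r + 1)).foldr (fun i y => (cmAt A).cyl i y) X) = h ⊤ :=
      congrArg h h1
    rw [h4, hh.map_top] at h2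
    exact hbt h2.symm
  have hinj : ∀ X Y : Set (At A), img h X = img h Y → X = Y := by
    intro X Y hXY
    have key : ∀ X Y : Set (At A), img h X = img h Y → X ⊆ Y := by
      intro X Y hXY a ha
      by_contra hn
      have h1 : (X ∩ Yᶜ).Nonempty := ⟨a, ha, hn⟩
      refine hker _ h1 ?_
      rw [img_inter hh, img_compl hh, hXY, Set.inter_compl_self]
    exact Set.Subset.antisymm (key X Y hXY) (key Y X hXY.symm)
  -- the base is large
  obtain ⟨e, he⟩ : ∃ e : Fin K → U w, Injective e := by
    by_contra hno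
    -- then the base embeds in `Fin K`
    have hemb : ∃ e : U w → Fin K, Injective e := by
      rcases finite_or_infinite (U w) with hfin | hinf
      · have := Fintype.ofFinite (U w)
        by_cases hc : Fintype.card (U w) ≤ K
        · obtain ⟨e⟩ := Function.Embedding.nonempty_of_card_le
            (α := U w) (β := Fin K) (by simpa using hc)
          exact ⟨e, e.injective⟩
        · obtain ⟨e⟩ := Function.Embedding.nonempty_of_card_le
            (α := Fin K) (β := U w) (by simp; omega)
          exact absurd ⟨e, e.injective⟩ hno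
      · exact absurd ⟨fun j : Fin K => Infinite.natEmbedding (U w) j.1, fun i j hij =>
          Fin.ext ((Infinite.natEmbedding (U w)).injective hij)⟩ hno
    obtain ⟨e, he⟩ := hemb
    have hcard : Injective (fun j => (fun v => e ∘ v) '' (img h {a : At A | a.1 ≤ x j})) := by
      intro j k hjk
      refine hx j k ?_
      have h1 : Injective (fun v : Fin (r + 1) → U w => e ∘ v) := fun v v' hv =>
        funext fun t => he (congrFun hv t)
      have h2 := hinj _ _ (h1.image_injective hjk)
      -- an element of an atomic Boolean algebra is determined by the atoms below it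
      have key : ∀ y z : A, ({a : At A | a.1 ≤ y} : Set (At A)) = {a | a.1 ≤ z} → y ≤ z := by
        intro y z hyz
        rw [← sdiff_eq_bot_iff]
        by_contra hn
        obtain ⟨a, ha, hle⟩ := (IsAtomic.eq_bot_or_exists_atom_le (y \ z)).resolve_left hn
        have h3 : (⟨a, ha⟩ : At A) ∈ {a : At A | a.1 ≤ z} := by
          rw [← hyz]; exact hle.trans sdiff_le
        exact ha.1 (le_bot_iff.1 ((le_inf hle h3).trans disjoint_sdiff_self_left.le_bot))
      exact le_antisymm (key _ _ h2) (key _ _ h2.symm)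
    have h3 := Fintype.card_le_of_injective _ hcard
    simp at h3
  -- the colouring
  have hUne : Nonempty (U w) := hU w
  let e' : ℕ → U w := fun j => if hj : j < K then e ⟨j, hj⟩ else Classical.arbitrary _
  have he' : ∀ j k, j < K → k < K → e' j = e' k → j = k := by
    intro j k hj hk hjk
    simp only [e', dif_pos hj, dif_pos hk] at hjk
    exact congrArg Fin.val (he hjk)
  choose val hval using fun a : Fin (r + 1) → U w =>
    exists_val hh (fun m : At A => cls p (lab A 0 m.1)) a
  let χ : Finset ℕ → Fin (r + 1) × Bool := fun S =>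
    if hS : S.card = r then val (dbl hr (fun j => e' (S.orderEmbOfFin hS j))) else (0, false)
  obtain ⟨H, hHK, hHc, k, hk⟩ := hK χ
  let u : Fin (r + 1) → U w := fun j => e' (H.orderEmbOfFin hHc j)
  have hu : Injective u := by
    intro i j hij
    have h1 := he' _ _ (Finset.mem_range.1 (hHK (Finset.orderEmbOfFin_mem H hHc i)))
      (Finset.mem_range.1 (hHK (Finset.orderEmbOfFin_mem H hHc j))) hij
    exact (H.orderEmbOfFin hHc).injective h1
  -- the class at every coordinate is `k`
  have hclass : ∀ i : Fin (r + 1), ∀ᶠ m in (ultra hh u : Filter (At A)),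
      cls p (lab A i.1 m.1) = k := by
    intro i
    obtain ⟨k', hk'⟩ := exists_val hh (fun m : At A => cls p (lab A i.1 m.1)) u
    have h1 := val_dbl hA hh (cls p) hr i.1 i.2 u hk'
    -- the sub-tuple
    have hi : H.orderEmbOfFin hHc i ∈ H := Finset.orderEmbOfFin_mem H hHc i
    have hSc : (H.erase (H.orderEmbOfFin hHc i)).card = r := by
      rw [Finset.card_erase_of_mem hi, hHc]; rfl
    have h2 : (fun j => u ((⟨i.1, i.2⟩ : Fin (r + 1)).succAbove j)) =
        fun j => e' ((H.erase (H.orderEmbOfFin hHc i)).orderEmbOfFin hSc j) := by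
      have h3 : (fun j => H.orderEmbOfFin hHc (i.succAbove j)) =
          ⇑((H.erase (H.orderEmbOfFin hHc i)).orderEmbOfFin hSc) := by
        refine Finset.orderEmbOfFin_unique hSc (fun j => ?_) ?_
        · rw [Finset.mem_erase]
          refine ⟨fun h => ?_, Finset.orderEmbOfFin_mem H hHc _⟩
          exact Fin.succAbove_ne i j ((H.orderEmbOfFin hHc).injective h)
        · exact (H.orderEmbOfFin hHc).strictMono.comp (Fin.strictMono_succAbove i)
      funext j
      exact congrArg e' (congrFun h3 j)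
    rw [h2] at h1
    have h4 := hval (dbl hr (fun j => e' ((H.erase (H.orderEmbOfFin hHc i)).orderEmbOfFin hSc j)))
    have h5 := val_unique hh (fun m : At A => cls p (lab A 0 m.1)) _ h1 h4
    have h6 := hk (H.erase (H.orderEmbOfFin hHc i)) (Finset.erase_subset _ _) hSc
    simp only [χ, dif_pos hSc] at h6
    rw [h5, h6] at hk'
    exact hk'
  have hdist : ∀ᶠ m in (ultra hh u : Filter (At A)), Dist m.1 := by
    have h1 : ∀ i j : Fin (r + 1), i ≠ j → ∀ᶠ m in (ultra hh u : Filter (At A)),
        m.1 ⊓ A.diag i j = ⊥ := by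
      intro i j hij
      have h2 : {m : At A | m.1 ≤ A.diag i j}ᶜ ∈ ultra hh u := by
        rw [mem_ultra, img_compl hh, img_diag hh]
        exact fun h => hij (hu h)
      filter_upwards [h2] with m hm
      rcases m.2.le_iff.1 (inf_le_left : m.1 ⊓ A.diag i j ≤ m.1) with h3 | h3
      · exact h3
      · exact absurd (inf_eq_left.1 h3) hm
    have h2 := Filter.eventually_all.2 fun i : Fin (r + 1) => Filter.eventually_all.2
      fun j : Fin (r + 1) => (Filter.eventually_imp_distrib_left).2 (h1 i j)
    exact h2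
  obtain ⟨m, hm1, hm2⟩ := ((Filter.eventually_all.2 hclass).and hdist).exists
  have hle : ∀ i : Fin (r + 1), lab A i.1 m.1 ≤ p k.1 := by
    intro i
    have h1 := le_colorOf (hp.color m.1 m.2 hm2 i)
    have h2 : colorOf p (lab A i.1 m.1) = k.1 := congrArg Prod.fst (hm1 i)
    rw [h2] at h1
    exact h1
  obtain ⟨i, j, hij⟩ := hp.link m.1 m.2 hm2 k.1 hle
  refine parity_ne hp (hle i) (hle j) hij ?_
  have h1 : ∀ i : Fin (r + 1), parity p k.1 (lab A i.1 m.1) = k.2 := by
    intro i
    have h2 := hm1 i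
    have h3 : colorOf p (lab A i.1 m.1) = k.1 := congrArg Prod.fst h2
    have h4 : parity p (colorOf p (lab A i.1 m.1)) (lab A i.1 m.1) = k.2 := congrArg Prod.snd h2
    rw [h3] at h4
    exact h4
  rw [h1 i, h1 j]

end Pool.Agent.Helper91.Cyl
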